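import Mathlib

/-!
# Duplication on `y² = x³ + a x + b` at one place
-/

set_option autoImplicit false

namespace Pool.Agent.Y733.LS

section Poly

variable {K : Type} [Field K]

/-- numerator of `x (2 P)` -/
def pF (a b x : K) : K := x ^ 4 - 2 * a * x ^ 2 - 8 * b * x + a ^ 2

/-- denominator of `x (2 P)` -/
def pG (a b x : K) : K := 4 * (x ^ 3 + a * x + b)

/-- the discriminant up to a factor -/
def dl (a b : K) : K := 4 * a ^ 3 + 27 * b ^ 2

theorem res1 (a b x : K) : (12 * x ^ 2 + 16 * a) * pF a b x -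
    (3 * x ^ 3 - 5 * a * x - 27 * b) * pG a b x = 4 * dl a b := by
  unfold pF pG dl
  ring

theorem res2 (a b x : K) :
    (4 * dl a b * x ^ 3 - 4 * a ^ 2 * b * x ^ 2 + 4 * a * (3 * a ^ 3 + 22 * b ^ 2) * x +
        12 * b * (a ^ 3 + 8 * b ^ 2)) * pF a b x +
      (a ^ 2 * b * x ^ 3 + a * (5 * a ^ 3 + 32 * b ^ 2) * x ^ 2 +
        2 * b * (13 * a ^ 3 + 96 * b ^ 2) * x - 3 * a ^ 2 * (a ^ 3 + 8 * b ^ 2)) * pG a b x =
    4 * dl a b * x ^ 7 := by
  unfold pF pG dl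
  ring

end Poly

section NA

variable {K : Type} [Field K] {w : AbsoluteValue K ℝ}

/-- ultrametric -/
def Na (w : AbsoluteValue K ℝ) : Prop := ∀ x y, w (x + y) ≤ max (w x) (w y)

theorem Na.sub (h : Na w) (x y : K) : w (x - y) ≤ max (w x) (w y) := by
  rw [sub_eq_add_neg]
  refine (h x (-y)).trans (le_of_eq ?_)
  rw [map_neg_eq_map]

theorem Na.le_add (h : Na w) {x y : K} {r : ℝ} (hx : w x ≤ r) (hy : w y ≤ r) : w (x + y) ≤ r :=
  (h x y).trans (max_le hx hy)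

theorem Na.le_sub (h : Na w) {x y : K} {r : ℝ} (hx : w x ≤ r) (hy : w y ≤ r) : w (x - y) ≤ r :=
  (h.sub x y).trans (max_le hx hy)

theorem Na.lt_add (h : Na w) {x y : K} {r : ℝ} (hx : w x < r) (hy : w y < r) : w (x + y) < r :=
  (h x y).trans_lt (max_lt hx hy)

theorem Na.lt_sub (h : Na w) {x y : K} {r : ℝ} (hx : w x < r) (hy : w y < r) : w (x - y) < r :=
  (h.sub x y).trans_lt (max_lt hx hy)

theorem Na.eq (h : Na w) {x y : K} (hy : w y < w x) : w (x + y) = w x := by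
  apply le_antisymm
  · exact (h x y).trans (max_le le_rfl hy.le)
  · by_contra hcon
    push Not at hcon
    have h1 : w x ≤ max (w (x + y)) (w y) := by
      have h2 := h.sub (x + y) y
      rwa [add_sub_cancel_right] at h2
    exact absurd h1 (not_le.2 (max_lt hcon hy))

theorem Na.nat (h : Na w) (n : ℕ) : w (n : K) ≤ 1 := by
  induction n with
  | zero => simp
  | succ n ih =>
    push_cast
    exact h.le_add ih (by rw [map_one])

theorem Na.ofNat (h : Na w) (n : ℕ) [n.AtLeastTwo] : w (OfNat.ofNat n : K) ≤ 1 := by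
  have := h.nat n
  exact this

/-- the resultant inequality, ultrametric case -/
theorem res_na (h : Na w) {a b x : K} {s : ℝ} (hs : 0 < s) (ha : w a ≤ s ^ 2) (hb : w b ≤ s ^ 3) :
    w (4 * dl a b) * max (w x) s ^ 4 ≤ s ^ 6 * max (w (pF a b x)) (s * w (pG a b x)) := by
  set M := max (w x) s with hM
  set R := max (w (pF a b x)) (s * w (pG a b x)) with hR
  have hR1 : w (pF a b x) ≤ R := le_max_left _ _
  have hR2 : s * w (pG a b x) ≤ R := le_max_right _ _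
  have hR0 : 0 ≤ R := (w.nonneg _).trans hR1
  have hsM : s ≤ M := le_max_right _ _
  have hxM : w x ≤ M := le_max_left _ _
  have hM0 : 0 < M := lt_of_lt_of_le hs hsM
  have hn : ∀ (n : ℕ) [n.AtLeastTwo] (z : K) (r : ℝ), w z ≤ r → w (OfNat.ofNat n * z) ≤ r := by
    intro n _ z r hz
    rw [map_mul]
    have h1 := h.ofNat (w := w) n
    have h2 := w.nonneg (OfNat.ofNat n : K)
    have h3 := w.nonneg z
    nlinarith
  have wp : ∀ (z : K) (n : ℕ) (r : ℝ), w z ≤ r → w (z ^ n) ≤ r ^ n := by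
    intro z n r hz
    rw [map_pow]
    exact pow_le_pow_left₀ (w.nonneg _) hz n
  have wm : ∀ (z z' : K) (r r' : ℝ), w z ≤ r → w z' ≤ r' → w (z * z') ≤ r * r' := by
    intro z z' r r' hz hz'
    rw [map_mul]
    exact mul_le_mul hz hz' (w.nonneg _) ((w.nonneg _).trans hz)
  have hdl : w (dl a b) ≤ s ^ 6 := by
    unfold dl
    apply h.le_add
    · refine hn 4 _ _ ((wp a 3 _ ha).trans (le_of_eq (by ring)))
    · refine hn 27 _ _ ((wp b 2 _ hb).trans (le_of_eq (by ring)))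
  rcases le_or_gt (w x) s with hx | hx
  · have hMs : M = s := max_eq_right hx
    rw [hMs]
    have h1 := res1 a b x
    have e1 : w (12 * x ^ 2 + 16 * a) ≤ s ^ 2 := by
      apply h.le_add
      · exact hn 12 _ _ (wp x 2 _ hx)
      · exact hn 16 _ _ ha
    have e2 : w (3 * x ^ 3 - 5 * a * x - 27 * b) ≤ s ^ 3 := by
      apply h.le_sub
      · apply h.le_sub
        · exact hn 3 _ _ (wp x 3 _ hx)
        · rw [mul_assoc]
          exact hn 5 _ _ ((wm a x _ _ ha hx).trans (le_of_eq (by ring)))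
      · exact hn 27 _ _ hb
    have h2 : w (4 * dl a b) ≤ s ^ 2 * R := by
      rw [← h1]
      apply h.le_sub
      · exact wm _ _ _ _ e1 hR1
      · refine (wm _ _ _ _ e2 le_rfl).trans ?_
        calc s ^ 3 * w (pG a b x) = s ^ 2 * (s * w (pG a b x)) := by ring
          _ ≤ s ^ 2 * R := by gcongr
    calc w (4 * dl a b) * s ^ 4 ≤ (s ^ 2 * R) * s ^ 4 := by gcongr
      _ = s ^ 6 * R := by ring
  · have hMx : M = w x := max_eq_left hx.le
    have h1 := res2 a b x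
    have hs0 := hs.le
    have e1 : w (4 * dl a b * x ^ 3 - 4 * a ^ 2 * b * x ^ 2 +
        4 * a * (3 * a ^ 3 + 22 * b ^ 2) * x + 12 * b * (a ^ 3 + 8 * b ^ 2)) ≤ s ^ 6 * M ^ 3 := by
      have i1 : w (4 * dl a b * x ^ 3) ≤ s ^ 6 * M ^ 3 := by
        rw [mul_assoc]
        exact hn 4 _ _ (wm _ _ _ _ hdl (wp x 3 _ hxM))
      have i2 : w (4 * a ^ 2 * b * x ^ 2) ≤ s ^ 6 * M ^ 3 := by
        have e : 4 * a ^ 2 * b * x ^ 2 = 4 * (a ^ 2 * b * x ^ 2) := by ring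
        rw [e]
        refine (hn 4 _ _ (wm _ _ _ _ (wm _ _ _ _ (wp a 2 _ ha) hb) (wp x 2 _ hxM))).trans ?_
        calc (s ^ 2) ^ 2 * s ^ 3 * M ^ 2 = s ^ 6 * M ^ 2 * s := by ring
          _ ≤ s ^ 6 * M ^ 2 * M := by gcongr
          _ = s ^ 6 * M ^ 3 := by ring
      have i3 : w (4 * a * (3 * a ^ 3 + 22 * b ^ 2) * x) ≤ s ^ 6 * M ^ 3 := by
        have e : 4 * a * (3 * a ^ 3 + 22 * b ^ 2) * x = 4 * (a * (3 * a ^ 3 + 22 * b ^ 2) * x) := by
          ring
        have e' : w (3 * a ^ 3 + 22 * b ^ 2) ≤ s ^ 6 := by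
          apply h.le_add
          · refine hn 3 _ _ ((wp a 3 _ ha).trans (le_of_eq (by ring)))
          · refine hn 22 _ _ ((wp b 2 _ hb).trans (le_of_eq (by ring)))
        rw [e]
        refine (hn 4 _ _ (wm _ _ _ _ (wm _ _ _ _ ha e') hxM)).trans ?_
        calc s ^ 2 * s ^ 6 * M = s ^ 6 * M * s ^ 2 := by ring
          _ ≤ s ^ 6 * M * M ^ 2 := by gcongr
          _ = s ^ 6 * M ^ 3 := by ring
      have i4 : w (12 * b * (a ^ 3 + 8 * b ^ 2)) ≤ s ^ 6 * M ^ 3 := by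
        have e : 12 * b * (a ^ 3 + 8 * b ^ 2) = 12 * (b * (a ^ 3 + 8 * b ^ 2)) := by ring
        have e' : w (a ^ 3 + 8 * b ^ 2) ≤ s ^ 6 := by
          apply h.le_add
          · exact (wp a 3 _ ha).trans (le_of_eq (by ring))
          · refine hn 8 _ _ ((wp b 2 _ hb).trans (le_of_eq (by ring)))
        rw [e]
        refine (hn 12 _ _ (wm _ _ _ _ hb e')).trans ?_
        calc s ^ 3 * s ^ 6 = s ^ 6 * s ^ 3 := by ring
          _ ≤ s ^ 6 * M ^ 3 := by gcongr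
      exact h.le_add (h.le_add (h.le_sub i1 i2) i3) i4
    have e2 : w (a ^ 2 * b * x ^ 3 + a * (5 * a ^ 3 + 32 * b ^ 2) * x ^ 2 +
        2 * b * (13 * a ^ 3 + 96 * b ^ 2) * x - 3 * a ^ 2 * (a ^ 3 + 8 * b ^ 2)) ≤
        s ^ 7 * M ^ 3 := by
      have i1 : w (a ^ 2 * b * x ^ 3) ≤ s ^ 7 * M ^ 3 := by
        refine (wm _ _ _ _ (wm _ _ _ _ (wp a 2 _ ha) hb) (wp x 3 _ hxM)).trans ?_
        exact le_of_eq (by ring)
      have i2 : w (a * (5 * a ^ 3 + 32 * b ^ 2) * x ^ 2) ≤ s ^ 7 * M ^ 3 := by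
        have e' : w (5 * a ^ 3 + 32 * b ^ 2) ≤ s ^ 6 := by
          apply h.le_add
          · refine hn 5 _ _ ((wp a 3 _ ha).trans (le_of_eq (by ring)))
          · refine hn 32 _ _ ((wp b 2 _ hb).trans (le_of_eq (by ring)))
        refine (wm _ _ _ _ (wm _ _ _ _ ha e') (wp x 2 _ hxM)).trans ?_
        calc s ^ 2 * s ^ 6 * M ^ 2 = s ^ 7 * M ^ 2 * s := by ring
          _ ≤ s ^ 7 * M ^ 2 * M := by gcongr
          _ = s ^ 7 * M ^ 3 := by ring
      have i3 : w (2 * b * (13 * a ^ 3 + 96 * b ^ 2) * x) ≤ s ^ 7 * M ^ 3 := by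
        have e : 2 * b * (13 * a ^ 3 + 96 * b ^ 2) * x = 2 * (b * (13 * a ^ 3 + 96 * b ^ 2) * x) := by
          ring
        have e' : w (13 * a ^ 3 + 96 * b ^ 2) ≤ s ^ 6 := by
          apply h.le_add
          · refine hn 13 _ _ ((wp a 3 _ ha).trans (le_of_eq (by ring)))
          · refine hn 96 _ _ ((wp b 2 _ hb).trans (le_of_eq (by ring)))
        rw [e]
        refine (hn 2 _ _ (wm _ _ _ _ (wm _ _ _ _ hb e') hxM)).trans ?_
        calc s ^ 3 * s ^ 6 * M = s ^ 7 * M * s ^ 2 := by ring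
          _ ≤ s ^ 7 * M * M ^ 2 := by gcongr
          _ = s ^ 7 * M ^ 3 := by ring
      have i4 : w (3 * a ^ 2 * (a ^ 3 + 8 * b ^ 2)) ≤ s ^ 7 * M ^ 3 := by
        have e : 3 * a ^ 2 * (a ^ 3 + 8 * b ^ 2) = 3 * (a ^ 2 * (a ^ 3 + 8 * b ^ 2)) := by ring
        have e' : w (a ^ 3 + 8 * b ^ 2) ≤ s ^ 6 := by
          apply h.le_add
          · exact (wp a 3 _ ha).trans (le_of_eq (by ring))
          · refine hn 8 _ _ ((wp b 2 _ hb).trans (le_of_eq (by ring)))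
        rw [e]
        refine (hn 3 _ _ (wm _ _ _ _ (wp a 2 _ ha) e')).trans ?_
        calc (s ^ 2) ^ 2 * s ^ 6 = s ^ 7 * s ^ 3 := by ring
          _ ≤ s ^ 7 * M ^ 3 := by gcongr
      exact h.le_sub (h.le_add (h.le_add i1 i2) i3) i4
    have h2 : w (4 * dl a b * x ^ 7) ≤ s ^ 6 * M ^ 3 * R := by
      rw [← h1]
      apply h.le_add
      · exact wm _ _ _ _ e1 hR1
      · refine (wm _ _ _ _ e2 le_rfl).trans ?_
        calc s ^ 7 * M ^ 3 * w (pG a b x) = s ^ 6 * M ^ 3 * (s * w (pG a b x)) := by ring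
          _ ≤ s ^ 6 * M ^ 3 * R := by gcongr
    rw [map_mul, map_pow, ← hMx] at h2
    have h3 : w (4 * dl a b) * M ^ 4 * M ^ 3 ≤ s ^ 6 * R * M ^ 3 := by
      calc w (4 * dl a b) * M ^ 4 * M ^ 3 = w (4 * dl a b) * M ^ 7 := by ring
        _ ≤ s ^ 6 * M ^ 3 * R := h2
        _ = s ^ 6 * R * M ^ 3 := by ring
    exact le_of_mul_le_mul_right h3 (by positivity)

end NA

end Pool.Agent.Y733.LS
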