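import Mathlib
import Pool.Agent.H16.LA.S8.Y733.LS.Loc

/-!
# The places where `j` has a simple pole: after one duplication there is no cancellation any more
-/

set_option autoImplicit false

namespace Pool.Agent.Y733.LS

section N

variable {K : Type} [Field K] {w : AbsoluteValue K ℝ}

theorem Na.le_mul_of {z z' : K} {r r' : ℝ} (hz : w z ≤ r) (hz' : w z' ≤ r') :
    w (z * z') ≤ r * r' := by
  rw [map_mul]
  exact mul_le_mul hz hz' (w.nonneg _) ((w.nonneg _).trans hz)

theorem key1 [CharZero K] (t X : K) :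
    16 * pF t t X + 24 * pG t t X = (2 * X + 3) ^ 4 - 8 * (4 * t + 27) * (X ^ 2 + X) +
      (4 * t + 27) * ((4 * t + 27) - 30) := by
  unfold pF pG
  ring

/-- at infinity -/
theorem big (h : Na w) (h2 : w 2 = 1) {t X : K} (ht : w t = 1) (hX : 1 < w X) :
    w (pF t t X) = w X ^ 4 ∧ w (pG t t X) = w X ^ 3 := by
  have hn : ∀ (n : ℕ) [n.AtLeastTwo] (z : K) (r : ℝ), w z ≤ r → w (OfNat.ofNat n * z) ≤ r := by
    intro n _ z r hz
    rw [map_mul]
    have h1 := h.ofNat (w := w) n
    have h2 := w.nonneg (OfNat.ofNat n : K)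
    have h3 := w.nonneg z
    nlinarith
  have h4 : w 4 = 1 := by
    have : (4 : K) = 2 * 2 := by norm_num
    rw [this, map_mul, h2, one_mul]
  have hX0 : 0 < w X := by linarith
  have p2 : 1 < w X ^ 2 := one_lt_pow₀ hX (by norm_num)
  have hx1 : w X < w X ^ 4 := by
    calc w X = w X * 1 := (mul_one _).symm
      _ < w X * w X ^ 3 := by
        apply mul_lt_mul_of_pos_left _ hX0
        exact one_lt_pow₀ hX (by norm_num)
      _ = w X ^ 4 := by ring
  constructor
  · have e : pF t t X = X ^ 4 + (-(2 * (t * X ^ 2)) - 8 * (t * X) + t ^ 2) := by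
      unfold pF
      ring
    rw [e, h.eq, map_pow]
    rw [map_pow]
    apply h.lt_add
    · apply h.lt_sub
      · rw [map_neg_eq_map]
        have := hn 2 (t * X ^ 2) (w X ^ 2) (by rw [map_mul, map_pow, ht, one_mul])
        refine this.trans_lt ?_
        calc w X ^ 2 = w X ^ 2 * 1 := (mul_one _).symm
          _ < w X ^ 2 * w X ^ 2 := by
            apply mul_lt_mul_of_pos_left p2 (by positivity)
          _ = w X ^ 4 := by ring
      · exact (hn 8 (t * X) (w X) (by rw [map_mul, ht, one_mul])).trans_lt hx1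
    · rw [map_pow, ht, one_pow]
      exact one_lt_pow₀ hX (by norm_num)
  · have e : pG t t X = 4 * (X ^ 3 + (t * X + t)) := by
      unfold pG
      ring
    rw [e, map_mul, h4, one_mul, h.eq, map_pow]
    rw [map_pow]
    apply h.lt_add
    · rw [map_mul, ht, one_mul]
      calc w X = w X * 1 := (mul_one _).symm
        _ < w X * w X ^ 2 := by
          apply mul_lt_mul_of_pos_left p2 hX0
        _ = w X ^ 3 := by ring
    · rw [ht]
      exact one_lt_pow₀ hX (by norm_num)

theorem small (h : Na w) {t X : K} (ht : w t = 1) (hX : w X ≤ 1) :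
    w (pF t t X) ≤ 1 ∧ w (pG t t X) ≤ 1 := by
  have hn : ∀ (n : ℕ) [n.AtLeastTwo] (z : K) (r : ℝ), w z ≤ r → w (OfNat.ofNat n * z) ≤ r := by
    intro n _ z r hz
    rw [map_mul]
    have h1 := h.ofNat (w := w) n
    have h2 := w.nonneg (OfNat.ofNat n : K)
    have h3 := w.nonneg z
    nlinarith
  have wp : ∀ (z : K) (n : ℕ), w z ≤ 1 → w (z ^ n) ≤ 1 := by
    intro z n hz
    rw [map_pow]
    exact pow_le_one₀ (w.nonneg _) hz
  have wm : ∀ (z z' : K), w z ≤ 1 → w z' ≤ 1 → w (z * z') ≤ 1 := by
    intro z z' hz hz'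
    refine (Na.le_mul_of hz hz').trans (by norm_num)
  constructor
  · unfold pF
    apply h.le_add
    · apply h.le_sub
      · apply h.le_sub
        · exact wp X 4 hX
        · rw [mul_assoc]
          exact hn 2 _ _ (wm _ _ ht.le (wp X 2 hX))
      · rw [mul_assoc]
        exact hn 8 _ _ (wm _ _ ht.le hX)
    · exact wp t 2 ht.le
  · unfold pG
    apply hn 4
    apply h.le_add
    · apply h.le_add
      · exact wp X 3 hX
      · exact wm _ _ ht.le hX
    · exact ht.le

theorem pw2 (h2 : w 2 = 1) (n : ℕ) : w (2 ^ n) = 1 := by rw [map_pow, h2, one_pow]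

theorem lin_big (h : Na w) (h2 : w 2 = 1) {X : K} (hX : 1 < w X) : w (2 * X + 3) = w X := by
  have h3 : w (3 : K) ≤ 1 := h.ofNat 3
  rw [h.eq, map_mul, h2, one_mul]
  rw [map_mul, h2, one_mul]
  linarith

theorem lin_small (h : Na w) {X : K} (hX : w X ≤ 1) : w (2 * X + 3) ≤ 1 := by
  apply h.le_add
  · rw [map_mul]
    have h1 : w (2 : K) ≤ 1 := h.ofNat 2
    have := w.nonneg (2 : K)
    have := w.nonneg X
    nlinarith
  · exact h.ofNat 3

/-- no cancellation away from the singular point -/
theorem good1 [CharZero K] (h : Na w) (h2 : w 2 = 1) {t X : K} (ht : w t = 1)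
    (hr : w (4 * t + 27) < 1) (hX : 1 ≤ w (2 * X + 3)) :
    max (w X) 1 ^ 4 ≤ max (w (pF t t X)) (w (pG t t X)) ∧
    (pG t t X ≠ 0 → 1 ≤ w (2 * (pF t t X / pG t t X) + 3)) := by
  have h16 : w (16 : K) = 1 := by
    have : (16 : K) = 2 ^ 4 := by norm_num
    rw [this, pw2 h2]
  have h8 : w (8 : K) = 1 := by
    have : (8 : K) = 2 ^ 3 := by norm_num
    rw [this, pw2 h2]
  rcases lt_or_ge 1 (w X) with hX1 | hX1
  · obtain ⟨e1, e2⟩ := big h h2 ht hX1
    rw [max_eq_left hX1.le, e1]
    refine ⟨le_max_left _ _, fun hG => ?_⟩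
    have e3 : w (pF t t X / pG t t X) = w X := by
      rw [map_div₀, e1, e2]
      have : w X ≠ 0 := by linarith
      field_simp
    rw [lin_big h h2 (by rw [e3]; exact hX1), e3]
    exact hX1.le
  · obtain ⟨e1, e2⟩ := small h ht hX1
    have hY : w (2 * X + 3) = 1 := le_antisymm (lin_small h hX1) hX
    have hk : w (16 * pF t t X + 24 * pG t t X) = 1 := by
      rw [key1]
      have e3 : (2 * X + 3) ^ 4 - 8 * (4 * t + 27) * (X ^ 2 + X) +
          (4 * t + 27) * ((4 * t + 27) - 30) = (2 * X + 3) ^ 4 +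
          (4 * t + 27) * ((4 * t + 27) - 30 - 8 * (X ^ 2 + X)) := by ring
      rw [e3, h.eq, map_pow, hY, one_pow]
      rw [map_pow, hY, one_pow]
      have e4 : w ((4 * t + 27) - 30 - 8 * (X ^ 2 + X)) ≤ 1 := by
        apply h.le_sub
        · exact h.le_sub hr.le (h.ofNat 30)
        · have := Na.le_mul_of (w := w) (z := (8 : K)) (z' := X ^ 2 + X) (h.ofNat 8)
            (h.le_add (x := X ^ 2) (y := X) (r := 1) (by
              rw [map_pow]; exact pow_le_one₀ (w.nonneg _) hX1) hX1)
          simpa using this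
      have := Na.le_mul_of (w := w) (le_refl (w (4 * t + 27))) e4
      rw [mul_one] at this
      exact this.trans_lt hr
    constructor
    · rw [max_eq_right hX1, one_pow]
      by_contra hcon
      push Not at hcon
      obtain ⟨c1, c2⟩ := max_lt_iff.1 hcon
      have : w (16 * pF t t X + 24 * pG t t X) < 1 := by
        apply h.lt_add
        · rw [map_mul, h16, one_mul]
          exact c1
        · rw [map_mul]
          have h24 : w (24 : K) ≤ 1 := h.ofNat 24
          have := w.nonneg (24 : K)
          have := w.nonneg (pG t t X)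
          nlinarith
      rw [hk] at this
      exact lt_irrefl _ this
    · intro hG
      have e5 : 2 * (pF t t X / pG t t X) + 3 =
          (16 * pF t t X + 24 * pG t t X) / (8 * pG t t X) := by
        field_simp
        ring
      rw [e5, map_div₀, hk, map_mul, h8, one_mul]
      have hpos : 0 < w (pG t t X) := w.pos hG
      rw [le_div_iff₀ hpos, one_mul]
      exact e2

/-- one duplication leads away from the singular point -/
theorem good2 [CharZero K] (h : Na w) (h2 : w 2 = 1) (h3 : w 3 = 1) {t X : K} {q : ℝ}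
    (ht : w t = 1) (hq0 : 0 < q) (hq1 : q < 1) (hd : ∀ z : K, w z < 1 → w z ≤ q)
    (hr : w (4 * t + 27) = q) (hG : pG t t X ≠ 0) :
    1 ≤ w (2 * (pF t t X / pG t t X) + 3) := by
  rcases le_or_gt 1 (w (2 * X + 3)) with hX | hX
  · exact (good1 h h2 ht (by rw [hr]; exact hq1) hX).2 hG
  · have h8 : w (8 : K) = 1 := by
      have : (8 : K) = 2 ^ 3 := by norm_num
      rw [this, pw2 h2]
    have h36 : w (36 : K) = 1 := by
      have : (36 : K) = 2 ^ 2 * 3 ^ 2 := by norm_num
      rw [this, map_mul, pw2 h2, map_pow, h3]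
      norm_num
    set Y := 2 * X + 3 with hY
    set r := 4 * t + 27 with hr'
    have hYq : w Y ≤ q := hd _ hX
    have hX1 : w X ≤ 1 := by
      by_contra hcon
      push Not at hcon
      rw [lin_big h h2 hcon] at hX
      linarith
    have hX3 : w (X - 3) ≤ 1 := h.le_sub hX1 (h.ofNat 3)
    have hXp : w (X + 1) ≤ 1 := h.le_add hX1 (by rw [map_one])
    have hqq : q * q ≤ q := by nlinarith
    have eG : pG t t X = Y * (Y * (X - 3)) + r * (X + 1) := by
      rw [hY, hr']
      unfold pG
      ring
    have hGq : w (pG t t X) ≤ q := by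
      rw [eG]
      apply h.le_add
      · have e1 : w (Y * (X - 3)) ≤ 1 := by
          refine (Na.le_mul_of hYq hX3).trans ?_
          linarith
        refine (Na.le_mul_of hYq e1).trans ?_
        linarith
      · refine (Na.le_mul_of hr.le hXp).trans ?_
        linarith
    have hk : w (16 * pF t t X + 24 * pG t t X) = q := by
      have e2 : 16 * pF t t X + 24 * pG t t X =
          -(36 * r) + (Y * Y ^ 3 - 2 * (r * Y ^ 2) + 8 * (r * Y) + r * r) := by
        rw [key1, hY, hr']
        ring
      have e3 : w (-(36 * r)) = q := by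
        rw [map_neg_eq_map, map_mul, h36, one_mul, hr]
      rw [e2, h.eq, e3]
      rw [e3]
      have hY1 : w Y ≤ 1 := by linarith
      have hqq' : q * q < q := by nlinarith
      have hYY : ∀ m : ℕ, w (Y ^ (m + 1)) ≤ q := by
        intro m
        rw [map_pow, pow_succ]
        have h5 : w Y ^ m ≤ 1 := pow_le_one₀ (w.nonneg _) hY1
        have h6 := w.nonneg Y
        nlinarith
      have f1 : w (r * Y ^ 2) ≤ q * q := Na.le_mul_of hr.le (hYY 1)
      have f2 : w (r * Y) ≤ q * q := Na.le_mul_of hr.le hYq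
      have hnn : ∀ (n : ℕ) [n.AtLeastTwo] (z : K), w z ≤ q * q →
          w (OfNat.ofNat n * z) ≤ q * q := by
        intro n _ z hz
        rw [map_mul]
        have h1 := h.ofNat (w := w) n
        have h2 := w.nonneg (OfNat.ofNat n : K)
        have h3 := w.nonneg z
        nlinarith
      apply lt_of_le_of_lt _ hqq'
      apply h.le_add
      · apply h.le_add
        · apply h.le_sub
          · exact Na.le_mul_of hYq (hYY 2)
          · exact hnn 2 _ f1
        · exact hnn 8 _ f2
      · exact Na.le_mul_of hr.le hr.le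
    have e5 : 2 * (pF t t X / pG t t X) + 3 =
        (16 * pF t t X + 24 * pG t t X) / (8 * pG t t X) := by
      field_simp
      ring
    rw [e5, map_div₀, hk, map_mul, h8, one_mul]
    have hpos : 0 < w (pG t t X) := w.pos hG
    rw [le_div_iff₀ hpos, one_mul]
    exact hGq

/-- the gain at the places where the curve is a ramified twist of a curve of good reduction -/
theorem gain1 (h : Na w) (h2 : w 2 = 1) {t X : K} {Q : ℝ} {l : ℤ}
    (ht : w t = 1) (hQ : 1 < Q) (hd : ∀ z : K, z ≠ 0 → ∃ m : ℤ, w z = Q ^ m)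
    (hr : w (4 * t + 27) = 1) (hG : w (pG t t X) = Q ^ l) (hl : Odd l) :
    Q ≤ w (pF t t X / pG t t X) := by
  have hQ0 : 0 < Q := by linarith
  have h4 : w (4 : K) = 1 := by
    have : (4 : K) = 2 ^ 2 := by norm_num
    rw [this, pw2 h2]
  rcases lt_or_ge 1 (w X) with hX1 | hX1
  · obtain ⟨e1, e2⟩ := big h h2 ht hX1
    have hX0 : X ≠ 0 := by
      rintro rfl
      rw [map_zero] at hX1
      linarith
    obtain ⟨m, hm⟩ := hd X hX0
    have e3 : w (pF t t X / pG t t X) = w X := by
      rw [map_div₀, e1, e2]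
      have : w X ≠ 0 := by linarith
      field_simp
    rw [e3, hm]
    have h5 : Q ^ (3 * m) = Q ^ l := by
      rw [← hG, e2, hm, ← zpow_natCast, ← zpow_mul]
      congr 1
      push_cast
      ring
    have h6 : 3 * m = l := zpow_right_injective₀ hQ0 hQ.ne' h5
    have h7 : 0 < m := by
      rw [hm] at hX1
      by_contra hcon
      push Not at hcon
      have := zpow_le_zpow_right₀ hQ.le hcon
      rw [zpow_zero] at this
      linarith
    calc Q = Q ^ (1 : ℤ) := (zpow_one _).symm
      _ ≤ Q ^ m := zpow_le_zpow_right₀ hQ.le (by omega)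
  · obtain ⟨e1, e2⟩ := small h ht hX1
    have hl1 : l ≤ -1 := by
      rw [hG] at e2
      have h5 : l ≤ 0 := by
        by_contra hcon
        push Not at hcon
        have := one_lt_zpow₀ hQ hcon
        linarith
      rcases hl with ⟨k, hk⟩
      omega
    have hGlt : w (pG t t X) ≤ Q⁻¹ := by
      rw [hG, ← zpow_neg_one]
      exact zpow_le_zpow_right₀ hQ.le hl1
    have hQi : Q⁻¹ < 1 := inv_lt_one_of_one_lt₀ hQ
    have hres := res_na h (a := t) (b := t) (x := X) (s := 1) one_pos (by rw [ht]; norm_num)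
      (by rw [ht]; norm_num)
    have hdl : w (4 * dl t t) = 1 := by
      have e : 4 * dl t t = 4 * (t ^ 2 * (4 * t + 27)) := by
        unfold dl
        ring
      rw [e, map_mul, h4, map_mul, map_pow, ht, hr]
      norm_num
    rw [hdl, max_eq_right hX1] at hres
    simp only [one_pow, one_mul] at hres
    have hF : 1 ≤ w (pF t t X) := by
      rcases le_max_iff.1 hres with h5 | h5
      · exact h5
      · linarith
    have hG0 : 0 < w (pG t t X) := by
      rw [hG]
      exact zpow_pos hQ0 _
    rw [map_div₀, le_div_iff₀ hG0]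
    calc Q * w (pG t t X) ≤ Q * Q⁻¹ := by gcongr
      _ = 1 := mul_inv_cancel₀ hQ0.ne'
      _ ≤ _ := hF

end N

end Pool.Agent.Y733.LS
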