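import Mathlib
import Pool.Agent.H16.LA.S8.W223.AK.Point
import Pool.Agent.H16.LA.S8.Y733.LS.Loc2

/-!
# Sums over all places
-/

set_option autoImplicit false
set_option linter.unusedSectionVars false

namespace Pool.Agent.Y733.LS

open NumberField IsDedekindDomain Finset Pool.Agent.H691R3 Pool.Agent.W223.AK

variable {K : Type} [Field K] [NumberField K]

/-- the sum over all places -/
noncomputable def Sm (f : InfinitePlace K → ℝ) (g : Pr K → ℝ) : ℝ :=
  ∑ w : InfinitePlace K, (w.mult : ℝ) * f w + ∑ᶠ v : Pr K, g v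

/-- the sum over all places of a function of the absolute value -/
noncomputable def Sa (F : AbsoluteValue K ℝ → ℝ) : ℝ := Sm (fun w => F w.1) (fun v => F (fv v))

/-- almost all finite places do not contribute -/
def Fs (F : AbsoluteValue K ℝ → ℝ) : Prop := (Function.support fun v : Pr K => F (fv v)).Finite

theorem Sm_add {f f' : InfinitePlace K → ℝ} {g g' : Pr K → ℝ} (h : (Function.support g).Finite)
    (h' : (Function.support g').Finite) :
    Sm (fun w => f w + f' w) (fun v => g v + g' v) = Sm f g + Sm f' g' := by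
  unfold Sm
  rw [finsum_add_distrib h h']
  simp only [mul_add, Finset.sum_add_distrib]
  ring

theorem Sm_sub {f f' : InfinitePlace K → ℝ} {g g' : Pr K → ℝ} (h : (Function.support g).Finite)
    (h' : (Function.support g').Finite) :
    Sm (fun w => f w - f' w) (fun v => g v - g' v) = Sm f g - Sm f' g' := by
  unfold Sm
  rw [finsum_sub_distrib h h']
  simp only [mul_sub, Finset.sum_sub_distrib]
  ring

theorem Sm_mul (c : ℝ) (f : InfinitePlace K → ℝ) (g : Pr K → ℝ) :
    Sm (fun w => c * f w) (fun v => c * g v) = c * Sm f g := by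
  unfold Sm
  rw [mul_add, Finset.mul_sum, ← smul_eq_mul c (∑ᶠ v, g v), smul_finsum]
  congr 1
  refine Finset.sum_congr rfl fun w _ => by ring

theorem Sm_mono {f f' : InfinitePlace K → ℝ} {g g' : Pr K → ℝ} (h : (Function.support g).Finite)
    (h' : (Function.support g').Finite) (hf : ∀ w, f w ≤ f' w) (hg : ∀ v, g v ≤ g' v) :
    Sm f g ≤ Sm f' g' := by
  unfold Sm
  apply add_le_add
  · refine Finset.sum_le_sum fun w _ => mul_le_mul_of_nonneg_left (hf w) (Nat.cast_nonneg _)
  · exact finsum_le_finsum' h h' hg

theorem Sm_nonneg {f : InfinitePlace K → ℝ} {g : Pr K → ℝ} (hf : ∀ w, 0 ≤ f w)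
    (hg : ∀ v, 0 ≤ g v) : 0 ≤ Sm f g :=
  add_nonneg (Finset.sum_nonneg fun w _ => mul_nonneg (Nat.cast_nonneg _) (hf w))
    (finsum_nonneg hg)

theorem supp_add {g g' : Pr K → ℝ} (h : (Function.support g).Finite)
    (h' : (Function.support g').Finite) : (Function.support fun v => g v + g' v).Finite :=
  (h.union h').subset (Function.support_add g g')

theorem supp_sub {g g' : Pr K → ℝ} (h : (Function.support g).Finite)
    (h' : (Function.support g').Finite) : (Function.support fun v => g v - g' v).Finite :=
  (h.union h').subset (Function.support_sub g g')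

theorem supp_mul (c : ℝ) {g : Pr K → ℝ} (h : (Function.support g).Finite) :
    (Function.support fun v => c * g v).Finite := by
  refine h.subset fun v hv => ?_
  rw [Function.mem_support] at hv ⊢
  intro h0
  rw [h0, mul_zero] at hv
  exact hv rfl

/-- the product formula -/
theorem Sa_log {z : K} (hz : z ≠ 0) : Sa (fun w => Real.log (w z)) = 0 := by
  have h := log_product_formula hz
  exact h

theorem Fs_log {z : K} (hz : z ≠ 0) : Fs (K := K) (fun w => Real.log (w z)) :=
  log_fv_support_finite hz

/-- the height -/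
theorem ht_eq_Sa (z : K) : ht z = Sa (fun w => Real.log (max (w z) 1)) := by
  show hr (aff z) = _
  unfold hr aff Sa Sm
  simp only [map_one]
  rfl

theorem sum_mult : ∑ w : InfinitePlace K, (w.mult : ℝ) = Module.finrank ℚ K := by
  rw [← InfinitePlace.sum_mult_eq]
  push_cast
  rfl

/-- constants -/
theorem Sm_const (c : ℝ) : Sm (K := K) (fun _ => c) (fun _ => 0) = Module.finrank ℚ K * c := by
  unfold Sm
  rw [finsum_zero, add_zero, ← Finset.sum_mul, sum_mult]

theorem inf_nat (w : InfinitePlace K) (n : ℕ) : w.1 (n : K) = n := by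
  have : w (n : K) = n := by
    rw [← InfinitePlace.norm_embedding_eq, map_natCast]
    simp
  exact this

theorem fv_Na (v : Pr K) : Na (fv v) := fun x y => fv_na v x y

/-- the finite part of the product formula for natural numbers -/
theorem fin_nat {n : ℕ} (hn : n ≠ 0) : ∑ᶠ v : Pr K, Real.log (fv v (n : K)) =
    -(Module.finrank ℚ K * Real.log n) := by
  have h := Sa_log (K := K) (z := (n : K)) (Nat.cast_ne_zero.2 hn)
  unfold Sa Sm at h
  simp only [inf_nat] at h
  rw [← Finset.sum_mul, sum_mult] at h
  linarith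

theorem ne_sets {a b : K} (ha : a ≠ 0) (hb : b ≠ 0) (x : K) :
    {v : Pr K | fv v a ≠ 1 ∨ fv v b ≠ 1 ∨ 1 < fv v x}.Finite := by
  rcases eq_or_ne x 0 with rfl | hx
  · refine ((fv_support_finite ha).union (fv_support_finite hb)).subset ?_
    intro v hv
    simp only [Set.mem_ofPred_eq, map_zero, Set.mem_union] at hv ⊢
    rcases hv with h | h | h
    · exact Or.inl h
    · exact Or.inr h
    · exact absurd h (by norm_num)
  · refine (((fv_support_finite ha).union (fv_support_finite hb)).union
      (fv_support_finite hx)).subset ?_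
    intro v hv
    simp only [Set.mem_ofPred_eq, Set.mem_union] at hv ⊢
    rcases hv with h | h | h
    · exact Or.inl (Or.inl h)
    · exact Or.inl (Or.inr h)
    · exact Or.inr h.ne'

theorem sz_one {w : AbsoluteValue K ℝ} {a b : K} (ha : w a = 1) (hb : w b = 1) :
    sz w a b = 1 := by
  unfold sz
  rw [ha, hb, Real.one_rpow, Real.one_rpow, max_self]

theorem Fs_Lam {a b : K} (ha : a ≠ 0) (hb : b ≠ 0) (x : K) :
    Fs (K := K) (fun w => Real.log (max (w x) (sz w a b))) := by
  refine (ne_sets ha hb x).subset ?_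
  intro v hv
  rw [Function.mem_support] at hv
  by_contra hcon
  simp only [Set.mem_ofPred_eq, not_or, not_not, not_lt] at hcon
  obtain ⟨h1, h2, h3⟩ := hcon
  apply hv
  show Real.log (max (fv v x) (sz (fv v) a b)) = 0
  rw [sz_one h1 h2, max_eq_right h3, Real.log_one]

theorem Fs_sz {a b : K} (ha : a ≠ 0) (hb : b ≠ 0) :
    Fs (K := K) (fun w => Real.log (sz w a b)) := by
  refine (ne_sets ha hb 0).subset ?_
  intro v hv
  rw [Function.mem_support] at hv
  by_contra hcon
  simp only [Set.mem_ofPred_eq, not_or, not_not, not_lt] at hcon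
  obtain ⟨h1, h2, h3⟩ := hcon
  apply hv
  show Real.log (sz (fv v) a b) = 0
  rw [sz_one h1 h2, Real.log_one]

theorem Fs_ht (x : K) : Fs (K := K) (fun w => Real.log (max (w x) 1)) := by
  refine (ne_sets (one_ne_zero) (one_ne_zero) x).subset ?_
  intro v hv
  rw [Function.mem_support] at hv
  by_contra hcon
  simp only [Set.mem_ofPred_eq, not_or, not_not, not_lt] at hcon
  obtain ⟨h1, h2, h3⟩ := hcon
  apply hv
  show Real.log (max (fv v x) 1) = 0
  rw [max_eq_right h3, Real.log_one]

/-- Mathlib's height -/
theorem logHeight_eq (z : K) : Height.logHeight₁ z = Sa (fun w => Real.log (max (w z) 1)) := by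
  rw [NumberField.logHeight₁_eq]
  unfold Sa Sm
  have h1 : ∀ r : ℝ, 0 ≤ r → Real.posLog r = Real.log (max r 1) := by
    intro r hr
    rw [Real.posLog_eq_log_max_one hr, max_comm]
  congr 1
  · refine Finset.sum_congr rfl fun w _ => ?_
    rw [h1 _ (apply_nonneg w z)]
    rfl
  · rw [← finsum_comp_equiv (FinitePlace.equivHeightOneSpectrum (K := K)).symm]
    refine finsum_congr fun v => ?_
    rw [h1 _ (by rw [FinitePlace.coe_apply]; exact AbsoluteValue.nonneg _ _)]
    rfl

end Pool.Agent.Y733.LS
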