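import Mathlib
import Pool.Agent.H16.LA.S8.Y733.LS.Sum

/-!
# The height of the multiples `2 ^ k P`
-/

set_option autoImplicit false
set_option linter.unusedSectionVars false

namespace Pool.Agent.Y733.LS

open NumberField IsDedekindDomain Finset Pool.Agent.H691R3 Pool.Agent.W223.AK

variable {K : Type} [Field K] [NumberField K]

/-- the `j`-invariant of `y² = x³ + a x + b` -/
noncomputable def jj (a b : K) : K := 6912 * a ^ 3 / (4 * a ^ 3 + 27 * b ^ 2)

/-- `v` does not divide `6` and is a simple pole of `j` -/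
def Sp (j : K) (v : Pr K) : Prop := fv v 2 = 1 ∧ fv v 3 = 1 ∧ fv v j = Nv v

open Classical in
/-- the part of the height which comes from the simple poles -/
noncomputable def sp (j : K) : ℝ := ∑ᶠ v : Pr K, if Sp j v then Real.log (Nv v) else 0

theorem Fs_sp (j : K) [∀ v, Decidable (Sp j v)] : (Function.support fun v : Pr K =>
    if Sp j v then Real.log (Nv v) else 0).Finite := by
  refine (ne_sets (one_ne_zero) (one_ne_zero) j).subset ?_
  intro v hv
  rw [Function.mem_support] at hv
  right
  right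
  by_contra hcon
  apply hv
  rw [if_neg]
  intro h
  apply hcon
  rw [h.2.2]
  exact Nv_one_lt v

theorem jj_eq (a b : K) : jj a b = 6912 * a ^ 3 / dl a b := rfl

theorem jj_sub (a b : K) (hD : dl a b ≠ 0) : jj a b - 1728 = -(46656 * b ^ 2 / dl a b) := by
  rw [jj_eq, div_sub' hD, ← neg_div]
  congr 1
  unfold dl
  ring

theorem w_jj (w : AbsoluteValue K ℝ) (a b : K) :
    w (jj a b) = w 6912 * (w a ^ 3 / w (dl a b)) := by
  rw [jj_eq, map_div₀, map_mul, map_pow]
  ring

theorem w_jj_sub (w : AbsoluteValue K ℝ) (a b : K) (hD : dl a b ≠ 0) :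
    w (jj a b - 1728) = w 46656 * (w b ^ 2 / w (dl a b)) := by
  rw [jj_sub a b hD, map_neg_eq_map, map_div₀, map_mul, map_pow]
  ring

theorem sp_facts {a b : K} (hD : dl a b ≠ 0) {v : Pr K} (h : Sp (jj a b) v) :
    fv v a ^ 3 = fv v b ^ 2 ∧ fv v (dl a b) = (Nv v)⁻¹ * fv v b ^ 2 := by
  obtain ⟨h2, h3, hj⟩ := h
  have hN := Nv_one_lt v
  have hN0 := Nv_pos v
  have hn := fv_Na v
  have h6912 : fv v (6912 : K) = 1 := by
    have : (6912 : K) = 2 ^ 8 * 3 ^ 3 := by norm_num
    rw [this, map_mul, map_pow, map_pow, h2, h3]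
    norm_num
  have h27 : fv v (27 : K) = 1 := by
    have : (27 : K) = 3 ^ 3 := by norm_num
    rw [this, map_pow, h3]
    norm_num
  have h4 : fv v (4 : K) = 1 := by
    have : (4 : K) = 2 ^ 2 := by norm_num
    rw [this, map_pow, h2]
    norm_num
  have hd0 : 0 < fv v (dl a b) := (fv v).pos hD
  rw [w_jj, h6912, one_mul, div_eq_iff hd0.ne'] at hj
  have e : 27 * b ^ 2 = -(4 * a ^ 3) + dl a b := by unfold dl; ring
  have e1 : fv v (27 * b ^ 2) = fv v b ^ 2 := by rw [map_mul, h27, one_mul, map_pow]
  have e2 : fv v (-(4 * a ^ 3)) = fv v a ^ 3 := by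
    rw [map_neg_eq_map, map_mul, h4, one_mul, map_pow]
  have e3 : fv v b ^ 2 = fv v a ^ 3 := by
    rw [← e1, e, hn.eq, e2]
    rw [e2, hj]
    nlinarith
  refine ⟨e3.symm, ?_⟩
  rw [e3, hj]
  field_simp

/-- the local height -/
noncomputable def Lam (a b x : K) (w : AbsoluteValue K ℝ) : ℝ := Real.log (max (w x) (sz w a b))

/-- the loss at the infinite places -/
noncomputable def lossi (a b : K) (w : InfinitePlace K) : ℝ :=
  Real.log (1000 * sz w.1 a b ^ 6 / w.1 (4 * dl a b))

open Classical in
/-- the loss at the finite places -/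
noncomputable def lossf (a b : K) (v : Pr K) : ℝ :=
  if Sp (jj a b) v then 0 else Real.log (sz (fv v) a b ^ 6 / fv v (4 * dl a b))

theorem Fs_loss {a b : K} (ha : a ≠ 0) (hb : b ≠ 0) (hD : dl a b ≠ 0) :
    (Function.support (lossf a b)).Finite := by
  have h4 : (4 : K) * dl a b ≠ 0 := mul_ne_zero (by norm_num) hD
  refine ((ne_sets ha hb 0).union (fv_support_finite h4)).subset ?_
  intro v hv
  rw [Function.mem_support] at hv
  by_contra hcon
  simp only [Set.mem_union, Set.mem_ofPred_eq, not_or, not_not, not_lt] at hcon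
  obtain ⟨⟨h1, h2, _⟩, h3⟩ := hcon
  apply hv
  unfold lossf
  split_ifs
  · rfl
  · rw [sz_one h1 h2, h3]
    norm_num

theorem ptw {w : AbsoluteValue K ℝ} {a b F G : K} (ha : a ≠ 0) (hG : G ≠ 0) :
    Real.log (max (w (F / G)) (sz w a b)) + Real.log (w G) =
      Real.log (max (w F) (sz w a b * w G)) := by
  have h1 : 0 < w G := w.pos hG
  have h2 : 0 < sz w a b := sz_pos ha
  rw [← Real.log_mul (lt_max_of_lt_right h2).ne' h1.ne', max_mul_of_nonneg _ _ h1.le, map_div₀,
    div_mul_cancel₀ _ h1.ne']

theorem dup_step {a b x : K} (ha : a ≠ 0) (hb : b ≠ 0) (hD : dl a b ≠ 0) (hG : pG a b x ≠ 0)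
    (hgood : ∀ v, Sp (jj a b) v → Good (fv v) a b x) :
    4 * Sa (Lam a b x) - Sm (lossi a b) (lossf a b) ≤ Sa (Lam a b (pF a b x / pG a b x)) := by
  have e1 : Sa (Lam a b (pF a b x / pG a b x)) =
      Sa (Lam a b (pF a b x / pG a b x)) + Sa (fun w => Real.log (w (pG a b x))) := by
    rw [Sa_log hG, add_zero]
  have hs1 : (Function.support fun v : Pr K => Lam a b (pF a b x / pG a b x) (fv v)).Finite :=
    Fs_Lam ha hb (pF a b x / pG a b x)
  have hs2 : (Function.support fun v : Pr K => Real.log (fv v (pG a b x))).Finite := Fs_log hG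
  have hs3 : (Function.support fun v : Pr K => Lam a b x (fv v)).Finite := Fs_Lam ha hb x
  have hs4 := Fs_loss ha hb hD
  have h4D : (4 : K) * dl a b ≠ 0 := mul_ne_zero (by norm_num) hD
  have e2 : Sa (Lam a b (pF a b x / pG a b x)) + Sa (fun w => Real.log (w (pG a b x))) =
      Sm (fun w => Lam a b (pF a b x / pG a b x) w.1 + Real.log (w.1 (pG a b x)))
        (fun v => Lam a b (pF a b x / pG a b x) (fv v) + Real.log (fv v (pG a b x))) := by
    rw [Sm_add hs1 hs2]
    rfl
  have e3 : 4 * Sa (Lam a b x) - Sm (lossi a b) (lossf a b) =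
      Sm (fun w => 4 * Lam a b x w.1 - lossi a b w)
        (fun v => 4 * Lam a b x (fv v) - lossf a b v) := by
    rw [Sm_sub (supp_mul 4 hs3) hs4, Sm_mul]
    rfl
  rw [e1, e2, e3]
  have hM : ∀ w : AbsoluteValue K ℝ, 0 < max (w x) (sz w a b) := fun w =>
    lt_max_of_lt_right (sz_pos ha)
  have hR : ∀ w : AbsoluteValue K ℝ, 0 < max (w (pF a b x)) (sz w a b * w (pG a b x)) := fun w =>
    lt_max_of_lt_right (mul_pos (sz_pos ha) (w.pos hG))
  apply Sm_mono (supp_sub (supp_mul 4 hs3) hs4) (supp_add hs1 hs2)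
  · intro w
    show 4 * Real.log (max (w.1 x) (sz w.1 a b)) - lossi a b w ≤
      Real.log (max (w.1 (pF a b x / pG a b x)) (sz w.1 a b)) + Real.log (w.1 (pG a b x))
    rw [ptw ha hG]
    have h1 := res_arch (w := w.1) (fun n => (inf_nat w n).le) (x := x) (sz_pos (b := b) ha)
      (le_sz_sq w.1 a b) (le_sz_cube w.1 a b)
    have h2 : 0 < w.1 (4 * dl a b) := w.1.pos h4D
    have h3 : 0 < sz w.1 a b := sz_pos ha
    have h4 := Real.log_le_log (by have := hM w.1; positivity) h1
    rw [Real.log_mul h2.ne' (pow_pos (hM w.1) 4).ne', Real.log_pow,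
      Real.log_mul (by positivity) (hR w.1).ne'] at h4
    unfold lossi
    rw [Real.log_div (by positivity) h2.ne']
    push_cast at h4
    linarith
  · intro v
    show 4 * Real.log (max (fv v x) (sz (fv v) a b)) - lossf a b v ≤
      Real.log (max (fv v (pF a b x / pG a b x)) (sz (fv v) a b)) + Real.log (fv v (pG a b x))
    rw [ptw ha hG]
    have h2 : 0 < fv v (4 * dl a b) := (fv v).pos h4D
    have h3 : 0 < sz (fv v) a b := sz_pos ha
    unfold lossf
    split_ifs with hsp
    · obtain ⟨f1, f2⟩ := sp_facts hD hsp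
      have hlt : fv v (dl a b) < fv v b ^ 2 := by
        rw [f2]
        have h5 : 0 < fv v b ^ 2 := pow_pos ((fv v).pos hb) 2
        have h6 : (Nv v)⁻¹ < 1 := inv_lt_one_of_one_lt₀ (Nv_one_lt v)
        nlinarith
      have h1 := (good_step (fv_Na v) hsp.1 ha hb f1 hlt (hgood v hsp)).1
      have h4 := Real.log_le_log (by have := hM (fv v); positivity) h1
      rw [Real.log_pow] at h4
      push_cast at h4
      linarith
    · have h1 := res_na (w := fv v) (fv_Na v) (x := x) (sz_pos (b := b) ha)
        (le_sz_sq (fv v) a b) (le_sz_cube (fv v) a b)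
      have h4 := Real.log_le_log (by have := hM (fv v); positivity) h1
      rw [Real.log_mul h2.ne' (pow_pos (hM (fv v)) 4).ne', Real.log_pow,
        Real.log_mul (by positivity) (hR (fv v)).ne'] at h4
      rw [Real.log_div (by positivity) h2.ne']
      push_cast at h4
      linarith

/-- after one duplication the point is good at the simple poles of `j` -/
theorem good_first {a b x : K} (ha : a ≠ 0) (hb : b ≠ 0) (hD : dl a b ≠ 0) (hG : pG a b x ≠ 0)
    {v : Pr K} (hv : Sp (jj a b) v) : Good (fv v) a b (pF a b x / pG a b x) := by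
  obtain ⟨f1, f2⟩ := sp_facts hD hv
  have hN := Nv_one_lt v
  have hN0 := Nv_pos v
  refine good_start (fv_Na v) hv.1 hv.2.1 ha hb f1 (q := (Nv v)⁻¹) (by positivity)
    (inv_lt_one_of_one_lt₀ hN) ?_ f2 hG
  intro z hz
  rcases eq_or_ne z 0 with rfl | hz0
  · rw [map_zero]
    positivity
  · obtain ⟨m, hm⟩ := fv_zpow v hz0
    rw [hm] at hz ⊢
    have h1 : m < 0 := by
      by_contra hcon
      push Not at hcon
      have := one_le_zpow₀ hN.le hcon
      linarith
    rw [← zpow_neg_one]
    exact zpow_le_zpow_right₀ hN.le (by omega)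

/-- the heights of the multiples -/
theorem tele {a b : K} (ha : a ≠ 0) (hb : b ≠ 0) (hD : dl a b ≠ 0) {x : ℕ → K}
    (hG : ∀ k, pG a b (x k) ≠ 0) (hx : ∀ k, x (k + 1) = pF a b (x k) / pG a b (x k)) (k : ℕ) :
    (4 : ℝ) ^ k * (Sa (Lam a b (x 1)) - Sm (lossi a b) (lossf a b) / 3) ≤
      Sa (Lam a b (x (k + 1))) - Sm (lossi a b) (lossf a b) / 3 := by
  induction k with
  | zero => simp
  | succ k ih =>
    have h1 := dup_step ha hb hD (hG (k + 1)) (fun v hv => by
      rw [hx k]
      exact good_first ha hb hD (hG k) hv)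
    rw [← hx (k + 1)] at h1
    rw [pow_succ]
    linarith

/-- the sum of the logarithms of the sizes -/
theorem sz_sum {a b : K} (ha : a ≠ 0) (hb : b ≠ 0) (hD : dl a b ≠ 0) :
    ht (jj a b) - Module.finrank ℚ K * Real.log 6912 ≤
      6 * Sa (fun w => Real.log (sz w a b)) := by
  have hs1 := Fs_sz ha hb
  have hs2 := Fs_log hD
  have hs3 := Fs_ht (jj a b)
  have e1 : 6 * Sa (fun w => Real.log (sz w a b)) =
      6 * Sa (fun w => Real.log (sz w a b)) - Sa (fun w => Real.log (w (dl a b))) := by
    rw [Sa_log hD, sub_zero]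
  rw [e1, ht_eq_Sa, ← Sm_const]
  unfold Sa
  have hz : (Function.support fun _ : Pr K => (0 : ℝ)).Finite := by simp
  rw [← Sm_mul, ← Sm_sub (supp_mul 6 hs1) hs2, ← Sm_sub hs3 hz]
  have key : ∀ w : AbsoluteValue K ℝ, 0 < sz w a b := fun w => sz_pos ha
  have hd : ∀ w : AbsoluteValue K ℝ, 0 < w (dl a b) := fun w => w.pos hD
  have e6 : ∀ w : AbsoluteValue K ℝ, 6 * Real.log (sz w a b) - Real.log (w (dl a b)) =
      Real.log (sz w a b ^ 6 / w (dl a b)) := by
    intro w
    rw [Real.log_div (by have := key w; positivity) (hd w).ne', Real.log_pow]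
    push_cast
    ring
  apply Sm_mono (supp_sub hs3 hz) (supp_sub (supp_mul 6 hs1) hs2)
  · intro w
    show Real.log (max (w.1 (jj a b)) 1) - Real.log 6912 ≤
      6 * Real.log (sz w.1 a b) - Real.log (w.1 (dl a b))
    rw [e6, ← Real.log_div (lt_max_of_lt_right one_pos).ne' (by norm_num)]
    apply Real.log_le_log
    · have : 0 < max (w.1 (jj a b)) 1 := lt_max_of_lt_right one_pos
      positivity
    · have h6912 : w.1 (6912 : K) = 6912 := by
        have := inf_nat w 6912
        exact_mod_cast this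
      have h4 : w.1 (4 : K) = 4 := by
        have := inf_nat w 4
        exact_mod_cast this
      have h27 : w.1 (27 : K) = 27 := by
        have := inf_nat w 27
        exact_mod_cast this
      have hdl : w.1 (dl a b) ≤ 31 * sz w.1 a b ^ 6 := by
        unfold dl
        refine (w.1.add_le _ _).trans ?_
        rw [map_mul, map_mul, map_pow, map_pow, h4, h27, sz_six]
        have h5 := le_max_left (w.1 a ^ 3) (w.1 b ^ 2)
        have h6 := le_max_right (w.1 a ^ 3) (w.1 b ^ 2)
        linarith
      rw [div_le_div_iff₀ (by norm_num) (hd w.1)]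
      rcases max_choice (w.1 (jj a b)) 1 with h | h
      · rw [h, w_jj, h6912]
        have h5 : w.1 a ^ 3 ≤ sz w.1 a b ^ 6 := by rw [sz_six]; exact le_max_left _ _
        have h6 : 6912 * (w.1 a ^ 3 / w.1 (dl a b)) * w.1 (dl a b) = 6912 * w.1 a ^ 3 := by
          have := (hd w.1).ne'
          field_simp
        rw [h6]
        linarith
      · rw [h]
        have := key w.1
        nlinarith [pow_pos this 6]
  · intro v
    show Real.log (max (fv v (jj a b)) 1) - 0 ≤
      6 * Real.log (sz (fv v) a b) - Real.log (fv v (dl a b))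
    rw [e6, sub_zero]
    apply Real.log_le_log (lt_max_of_lt_right one_pos)
    have hn := fv_Na v
    have hdl : fv v (dl a b) ≤ sz (fv v) a b ^ 6 := by
      unfold dl
      rw [sz_six]
      refine (fv_na v _ _).trans (max_le_max ?_ ?_)
      · rw [map_mul, map_pow]
        have h5 : fv v (4 : K) ≤ 1 := hn.ofNat 4
        have h6 : 0 ≤ fv v a ^ 3 := pow_nonneg ((fv v).nonneg _) _
        nlinarith
      · rw [map_mul, map_pow]
        have h5 : fv v (27 : K) ≤ 1 := hn.ofNat 27
        have h6 : 0 ≤ fv v b ^ 2 := pow_nonneg ((fv v).nonneg _) _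
        nlinarith
    rw [le_div_iff₀ (hd (fv v))]
    rcases max_choice (fv v (jj a b)) 1 with h | h
    · rw [h, w_jj]
      have h5 : fv v a ^ 3 ≤ sz (fv v) a b ^ 6 := by rw [sz_six]; exact le_max_left _ _
      have h6 : fv v 6912 * (fv v a ^ 3 / fv v (dl a b)) * fv v (dl a b) =
          fv v 6912 * fv v a ^ 3 := by
        have := (hd (fv v)).ne'
        field_simp
      rw [h6]
      have h7 : fv v (6912 : K) ≤ 1 := hn.ofNat 6912
      have h8 : 0 ≤ fv v a ^ 3 := pow_nonneg ((fv v).nonneg _) _
      nlinarith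
    · rw [h, one_mul]
      exact hdl

/-- the total loss -/
theorem loss_sum {a b : K} (ha : a ≠ 0) (hb : b ≠ 0) (hD : dl a b ≠ 0) :
    Sm (lossi a b) (lossf a b) ≤ ht (jj a b) - sp (jj a b) +
      Module.finrank ℚ K * (Real.log 250 + Real.log ((4 * 6912 * 46656 : ℕ) : ℝ)) := by
  classical
  have hs1 := Fs_loss ha hb hD
  have hs2 := Fs_ht (jj a b)
  have hs3 := Fs_sp (jj a b)
  set N1 : ℕ := 4 * 6912 * 46656 with hN1
  have hN1' : N1 ≠ 0 := by norm_num [hN1]
  have hs4 : (Function.support fun v : Pr K => Real.log (fv v (N1 : K))).Finite :=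
    Fs_log (K := K) (z := (N1 : K)) (Nat.cast_ne_zero.2 hN1')
  have e1 : ht (jj a b) - sp (jj a b) +
      Module.finrank ℚ K * (Real.log 250 + Real.log (N1 : ℝ)) =
      Sm (fun w => (Real.log (max (w.1 (jj a b)) 1) - 0) + (Real.log 250 + 0))
        (fun v => (Real.log (max (fv v (jj a b)) 1) -
          (if Sp (jj a b) v then Real.log (Nv v) else 0)) + (0 + -1 * Real.log (fv v (N1 : K)))) := by
    rw [Sm_add (supp_sub hs2 hs3) (supp_add (by simp) (supp_mul (-1) hs4)), Sm_sub hs2 hs3,
      Sm_add (by simp) (supp_mul (-1) hs4)]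
    have e2 : Sm (fun _ : InfinitePlace K => (0 : ℝ)) (fun v : Pr K =>
        if Sp (jj a b) v then Real.log (Nv v) else 0) = sp (jj a b) := by
      unfold Sm sp
      simp
    have e3 : Sm (fun _ : InfinitePlace K => Real.log 250) (fun _ : Pr K => (0 : ℝ)) =
        Module.finrank ℚ K * Real.log 250 := Sm_const _
    have e4 : Sm (fun _ : InfinitePlace K => (0 : ℝ)) (fun v : Pr K =>
        -1 * Real.log (fv v (N1 : K))) = Module.finrank ℚ K * Real.log (N1 : ℝ) := by
      unfold Sm
      simp only [mul_zero, Finset.sum_const_zero, zero_add]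
      have h5 := fin_nat (K := K) hN1'
      have h6 : ∑ᶠ v : Pr K, -1 * Real.log (fv v (N1 : K)) =
          -1 * ∑ᶠ v : Pr K, Real.log (fv v (N1 : K)) := by
        rw [← smul_eq_mul, smul_finsum]
        rfl
      rw [h6, h5]
      ring
    rw [e2, e3, e4, ht_eq_Sa]
    unfold Sa
    ring
  rw [e1]
  have hd : ∀ w : AbsoluteValue K ℝ, 0 < w (dl a b) := fun w => w.pos hD
  apply Sm_mono hs1 (supp_add (supp_sub hs2 hs3) (supp_add (by simp) (supp_mul (-1) hs4)))
  · intro w
    unfold lossi
    have h6912 : w.1 (6912 : K) = 6912 := by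
      have := inf_nat w 6912
      exact_mod_cast this
    have h46656 : w.1 (46656 : K) = 46656 := by
      have := inf_nat w 46656
      exact_mod_cast this
    have h1728 : w.1 (1728 : K) = 1728 := by
      have := inf_nat w 1728
      exact_mod_cast this
    have h4 : w.1 (4 : K) = 4 := by
      have := inf_nat w 4
      exact_mod_cast this
    have hmx : 0 < max (w.1 (jj a b)) 1 := lt_max_of_lt_right one_pos
    rw [sub_zero, add_zero, ← Real.log_mul hmx.ne' (by norm_num)]
    have hsz := sz_pos (w := w.1) (b := b) ha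
    apply Real.log_le_log
    · have : 0 < w.1 (4 * dl a b) := w.1.pos (mul_ne_zero (by norm_num) hD)
      positivity
    · rw [map_mul, h4, div_le_iff₀ (by have := hd w.1; positivity), sz_six]
      have i1 := w_jj w.1 a b
      have i2 := w_jj_sub w.1 a b hD
      rw [h6912] at i1
      rw [h46656] at i2
      have j1 : w.1 a ^ 3 = w.1 (jj a b) * w.1 (dl a b) / 6912 := by
        rw [i1]
        have := (hd w.1).ne'
        field_simp
      have j2 : w.1 b ^ 2 = w.1 (jj a b - 1728) * w.1 (dl a b) / 46656 := by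
        rw [i2]
        have := (hd w.1).ne'
        field_simp
      have j3 : w.1 (jj a b - 1728) ≤ w.1 (jj a b) + 1728 := by
        have := w.1.sub_le (jj a b) 0 1728
        simp only [sub_zero, zero_sub, map_neg_eq_map] at this
        linarith
      have j4 := le_max_left (w.1 (jj a b)) 1
      have j5 := le_max_right (w.1 (jj a b)) 1
      have j6 := hd w.1
      have k1 : w.1 a ^ 3 ≤ max (w.1 (jj a b)) 1 * w.1 (dl a b) := by
        rw [j1]
        have : w.1 (jj a b) * w.1 (dl a b) ≤ max (w.1 (jj a b)) 1 * w.1 (dl a b) := by gcongr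
        have : 0 ≤ w.1 (jj a b) * w.1 (dl a b) := by positivity
        linarith
      have k2 : w.1 b ^ 2 ≤ max (w.1 (jj a b)) 1 * w.1 (dl a b) := by
        rw [j2]
        have k3 : w.1 (jj a b - 1728) ≤ 1729 * max (w.1 (jj a b)) 1 := by linarith
        have k4 : w.1 (jj a b - 1728) * w.1 (dl a b) ≤
            1729 * max (w.1 (jj a b)) 1 * w.1 (dl a b) := by gcongr
        have : 0 ≤ max (w.1 (jj a b)) 1 * w.1 (dl a b) := by positivity
        linarith
      have k5 := max_le k1 k2
      linarith
  · intro v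
    have hn := fv_Na v
    have hnat : fv v (N1 : K) ≤ 1 := hn.nat N1
    have hNpos : 0 < fv v (N1 : K) := (fv v).pos (Nat.cast_ne_zero.2 hN1')
    have hmx : 0 < max (fv v (jj a b)) 1 := lt_max_of_lt_right one_pos
    have hlogN : Real.log (fv v (N1 : K)) ≤ 0 := Real.log_nonpos hNpos.le hnat
    unfold lossf
    split_ifs with hsp
    · have h1 : max (fv v (jj a b)) 1 = Nv v := by
        rw [hsp.2.2]
        exact max_eq_left (Nv_one_lt v).le
      show 0 ≤ Real.log (max (fv v (jj a b)) 1) - Real.log (Nv v) +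
        (0 + -1 * Real.log (fv v (N1 : K)))
      rw [h1]
      linarith
    · have hsz := sz_pos (w := fv v) (b := b) ha
      have h4D : 0 < fv v (4 * dl a b) := (fv v).pos (mul_ne_zero (by norm_num) hD)
      have goal : Real.log (sz (fv v) a b ^ 6 / fv v (4 * dl a b)) ≤
          Real.log (max (fv v (jj a b)) 1 / fv v (N1 : K)) := by
        apply Real.log_le_log (by positivity)
        have n4 : fv v (4 : K) ≤ 1 := hn.ofNat 4
        have n6912 : fv v (6912 : K) ≤ 1 := hn.ofNat 6912
        have n46656 : fv v (46656 : K) ≤ 1 := hn.ofNat 46656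
        have p4 : 0 < fv v (4 : K) := (fv v).pos (by norm_num)
        have p6912 : 0 < fv v (6912 : K) := (fv v).pos (by norm_num)
        have p46656 : 0 < fv v (46656 : K) := (fv v).pos (by norm_num)
        have eN : fv v (N1 : K) = fv v 4 * fv v 6912 * fv v 46656 := by
          rw [← map_mul, ← map_mul]
          congr 1
          norm_num [hN1]
        rw [map_mul, div_le_div_iff₀ (by have := hd (fv v); positivity) hNpos, eN, sz_six]
        have j6 := hd (fv v)
        have i1 := w_jj (fv v) a b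
        have i2 := w_jj_sub (fv v) a b hD
        have j1 : fv v 6912 * fv v a ^ 3 = fv v (jj a b) * fv v (dl a b) := by
          rw [i1]
          have := j6.ne'
          field_simp
        have j2 : fv v 46656 * fv v b ^ 2 = fv v (jj a b - 1728) * fv v (dl a b) := by
          rw [i2]
          have := j6.ne'
          field_simp
        have j3 : fv v (jj a b - 1728) ≤ max (fv v (jj a b)) 1 := by
          refine (hn.sub _ _).trans (max_le_max le_rfl ?_)
          exact hn.ofNat 1728
        have j4 := le_max_left (fv v (jj a b)) 1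
        set m := max (fv v (jj a b)) 1 with hm
        have k1 : fv v a ^ 3 * (fv v 4 * fv v 6912 * fv v 46656) ≤
            m * (fv v 4 * fv v (dl a b)) := by
          calc fv v a ^ 3 * (fv v 4 * fv v 6912 * fv v 46656)
              = (fv v 6912 * fv v a ^ 3) * (fv v 4 * fv v 46656) := by ring
            _ = fv v (jj a b) * fv v (dl a b) * (fv v 4 * fv v 46656) := by rw [j1]
            _ ≤ m * fv v (dl a b) * (fv v 4 * 1) := by gcongr
            _ = _ := by ring
        have k2 : fv v b ^ 2 * (fv v 4 * fv v 6912 * fv v 46656) ≤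
            m * (fv v 4 * fv v (dl a b)) := by
          calc fv v b ^ 2 * (fv v 4 * fv v 6912 * fv v 46656)
              = (fv v 46656 * fv v b ^ 2) * (fv v 4 * fv v 6912) := by ring
            _ = fv v (jj a b - 1728) * fv v (dl a b) * (fv v 4 * fv v 6912) := by rw [j2]
            _ ≤ m * fv v (dl a b) * (fv v 4 * 1) := by gcongr
            _ = _ := by ring
        rcases max_choice (fv v a ^ 3) (fv v b ^ 2) with h | h
        · rw [h]; exact k1
        · rw [h]; exact k2
      rw [Real.log_div hmx.ne' hNpos.ne'] at goal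
      linarith

end Pool.Agent.Y733.LS
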