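import Mathlib
import Pool.Agent.H16.LA.S8.Y733.LS.Tele
import Pool.Agent.H16.LA.S8.Y733.UD.Fin

/-!
# Counting the invariants with few simple poles and those of the curves with a point of order two
-/

set_option autoImplicit false
set_option linter.unusedSectionVars false

namespace Pool.Agent.Y733.LS

open NumberField IsDedekindDomain Finset Pool.Agent.H691R3 Pool.Agent.W223.AK Pool.Agent.Y733.UD
open Pool.Agent.W222.UABC (cS_empty)

section One

variable {K : Type} [Field K] [NumberField K]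

/-- the primes dividing a natural number -/
theorem sum_dvd {n : ℕ} (hn : n ≠ 0) (T : Finset (Pr K)) (hT : ∀ v ∈ T, fv v (n : K) ≠ 1) :
    ∑ v ∈ T, Real.log (Nv v) ≤ Module.finrank ℚ K * Real.log n := by
  classical
  have hn' : (n : K) ≠ 0 := Nat.cast_ne_zero.2 hn
  have h1 := fin_nat (K := K) hn
  have hle : ∀ v : Pr K, fv v (n : K) ≤ 1 := fun v => (fv_Na v).nat n
  have hlog : ∀ v : Pr K, 0 ≤ -Real.log (fv v (n : K)) := fun v =>
    neg_nonneg.2 (Real.log_nonpos ((fv v).nonneg _) (hle v))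
  set S := (fv_support_finite hn').toFinset with hS
  have h2 : ∑ᶠ v : Pr K, Real.log (fv v (n : K)) = ∑ v ∈ S, Real.log (fv v (n : K)) := by
    refine finsum_eq_sum_of_support_subset _ ?_
    intro v hv
    rw [hS, Set.Finite.coe_toFinset]
    simp only [Function.mem_support, Set.mem_ofPred_eq] at hv ⊢
    intro h
    rw [h, Real.log_one] at hv
    exact hv rfl
  have hTS : T ⊆ S := by
    intro v hv
    rw [hS, Set.Finite.mem_toFinset]
    exact hT v hv
  calc ∑ v ∈ T, Real.log (Nv v) ≤ ∑ v ∈ T, -Real.log (fv v (n : K)) := by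
        refine Finset.sum_le_sum fun v hv => ?_
        obtain ⟨m, hm⟩ := fv_zpow v hn'
        have h3 := hle v
        have h4 := hT v hv
        rw [hm] at h3 h4 ⊢
        have h5 : m < 0 := by
          by_contra hcon
          push Not at hcon
          rcases hcon.lt_or_eq with h6 | h6
          · have := one_lt_zpow₀ (Nv_one_lt v) h6
            linarith
          · rw [← h6, zpow_zero] at h4
            exact h4 rfl
        rw [Real.log_zpow]
        have h6 : (m : ℝ) ≤ -1 := by exact_mod_cast (by omega : m ≤ -1)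
        have h7 := log_Nv_pos v
        nlinarith
    _ ≤ ∑ v ∈ S, -Real.log (fv v (n : K)) :=
        Finset.sum_le_sum_of_subset_of_nonneg hTS fun v _ _ => hlog v
    _ = Module.finrank ℚ K * Real.log n := by
        rw [Finset.sum_neg_distrib, ← h2, h1]
        ring

theorem sp_eq (j : K) (s : Finset (Pr K)) [∀ v, Decidable (Sp j v)] (hs : ∀ v, Sp j v → v ∈ s) :
    sp j = ∑ v ∈ s, if Sp j v then Real.log (Nv v) else 0 := by
  classical
  unfold sp
  rw [finsum_eq_sum_of_support_subset (s := s)]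
  · refine Finset.sum_congr rfl fun v _ => ?_
    congr 1
  · intro v hv
    rw [Function.mem_support] at hv
    rw [Finset.mem_coe]
    apply hs
    by_contra hcon
    exact hv (if_neg hcon)

/-- the radical of the denominator -/
theorem rl_le_sp {j : K} {P : Fin 3 → Idl K} (hP : IsP ∅ j P) :
    rl (P 1) ≤ sp j / 2 + len (P 1) / 2 + Module.finrank ℚ K * Real.log 6 := by
  classical
  have hval : ∀ v, max (fv v j) 1 = (Nv v) ^ (P 1 v) := by
    intro v
    have h1 := hP.val 1 v (by simp)
    rw [L_one, map_one] at h1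
    have h2 := Nv_pos v
    rw [zpow_neg, zpow_natCast] at h1
    have h3 : (Nv v) ^ (P 1 v) ≠ 0 := by positivity
    field_simp at h1
    exact h1.symm
  have hsup : ∀ v, Sp j v → v ∈ (P 1).support := by
    intro v hv
    rw [Finsupp.mem_support_iff]
    intro h0
    have h1 := hval v
    rw [h0, pow_zero, hv.2.2] at h1
    have h2 := Nv_one_lt v
    have h3 := le_max_left (Nv v) 1
    linarith
  have hsp := sp_eq j (P 1).support hsup
  set D := (P 1).support.filter fun v => fv v ((6 : ℕ) : K) ≠ 1 with hD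
  have hDsum : ∑ v ∈ D, Real.log (Nv v) ≤ Module.finrank ℚ K * Real.log 6 := by
    have := sum_dvd (K := K) (n := 6) (by norm_num) D (fun v hv => (Finset.mem_filter.1 hv).2)
    exact_mod_cast this
  have hDsum' : ∑ v ∈ D, Real.log (Nv v) =
      ∑ v ∈ (P 1).support, if fv v ((6 : ℕ) : K) ≠ 1 then Real.log (Nv v) else 0 := by
    rw [hD, Finset.sum_filter]
  have key : rl (P 1) ≤ sp j / 2 + len (P 1) / 2 + ∑ v ∈ D, Real.log (Nv v) := by
    rw [hsp, hDsum']
    unfold rl len
    rw [Finset.sum_div, Finset.sum_div, ← Finset.sum_add_distrib, ← Finset.sum_add_distrib]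
    refine Finset.sum_le_sum fun v hv => ?_
    have hlog := log_Nv_pos v
    rw [Finsupp.mem_support_iff] at hv
    have h1 : (1 : ℝ) ≤ (P 1 v : ℝ) := by exact_mod_cast Nat.one_le_iff_ne_zero.2 hv
    by_cases h6 : fv v ((6 : ℕ) : K) = 1
    · rw [if_neg (not_not.2 h6), add_zero]
      have e6 : fv v 2 * fv v 3 = 1 := by
        rw [← map_mul, ← h6]
        congr 1
        push_cast
        norm_num
      have l2 : fv v (2 : K) ≤ 1 := (fv_Na v).ofNat 2
      have l3 : fv v (3 : K) ≤ 1 := (fv_Na v).ofNat 3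
      have p2 : 0 ≤ fv v (2 : K) := (fv v).nonneg _
      have p3 : 0 ≤ fv v (3 : K) := (fv v).nonneg _
      have h2 : fv v (2 : K) = 1 := by
        apply le_antisymm l2
        nlinarith
      have h3 : fv v (3 : K) = 1 := by
        apply le_antisymm l3
        nlinarith
      rcases (Nat.one_le_iff_ne_zero.2 hv).eq_or_lt with h | h
      · have h7 : Sp j v := by
          refine ⟨h2, h3, ?_⟩
          have h8 := hval v
          rw [← h, pow_one] at h8
          rcases max_choice (fv v j) 1 with h9 | h9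
          · rw [h9] at h8; exact h8
          · rw [h9] at h8
            have := Nv_one_lt v
            linarith
        rw [if_pos h7, ← h]
        push_cast
        linarith
      · have h7 : (2 : ℝ) ≤ (P 1 v : ℝ) := by exact_mod_cast h
        have h8 : 0 ≤ if Sp j v then Real.log (Nv v) else 0 := by
          split_ifs
          · exact hlog.le
          · exact le_rfl
        nlinarith
    · rw [if_pos h6]
      have h8 : 0 ≤ if Sp j v then Real.log (Nv v) else 0 := by
        split_ifs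
        · exact hlog.le
        · exact le_rfl
      nlinarith
  linarith

end One

/-- the invariants with few simple poles -/
theorem sp_count {ε : ℝ} (hε : 0 < ε) : ∃ A : ℝ, 0 ≤ A ∧
    ∀ (K : Type) [Field K] [NumberField K] (η X : ℝ) (E : Finset K), η ≤ 4 →
      (∀ j ∈ E, Pt j ∧ ht j ≤ X ∧ sp j ≤ (1 - η) * ht j) →
        (E.card : ℝ) ≤ Real.exp (Module.finrank ℚ K * A + (2 - η / 2 + ε) * X) := by
  classical
  obtain ⟨A, hA, h⟩ := class_card hε
  have l2 : 0 ≤ Real.log 2 := Real.log_nonneg (by norm_num)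
  have l6 : 0 ≤ Real.log 6 := Real.log_nonneg (by norm_num)
  refine ⟨A + 3 / 2 * Real.log 2 + Real.log 6, by positivity, ?_⟩
  intro K _ _ η X E hη hE
  set n := Module.finrank ℚ K with hn
  have hP : ∀ j : K, ∃ P : Fin 3 → Idl K, Pt j → IsP ∅ j P := by
    intro j
    by_cases hj : Pt j
    · obtain ⟨P, hP⟩ := exists_isP ∅ hj
      exact ⟨P, fun _ => hP⟩
    · exact ⟨fun _ => 0, fun h => absurd h hj⟩
  choose P hP using hP
  have h1 := h K X ((2 - η / 2) * X + n * (3 / 2 * Real.log 2 + Real.log 6)) E P 0 1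
    (by decide) ?_
  · refine h1.trans (le_of_eq ?_)
    congr 1
    ring
  · intro j hj
    obtain ⟨h2, h3, h4⟩ := hE j hj
    refine ⟨h2, h3, hP j h2, ?_⟩
    have h5 := rl_le_sp (hP j h2)
    have h6 := len_le h2 (hP j h2) 1
    have h7 := len_le h2 (hP j h2) 0
    have h8 := rl_le_len (P j 0)
    rw [cS_empty] at h6 h7
    have h9 : (2 - η / 2) * ht j ≤ (2 - η / 2) * X := mul_le_mul_of_nonneg_left h3 (by linarith)
    linarith

section Two

variable {K : Type} [Field K] [NumberField K]

/-- the curves with a rational point of order two -/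
noncomputable def jt (α : K) : K := 6912 * α ^ 3 / ((α + 3) ^ 2 * (4 * α + 3))

theorem jt_eq {a b e : K} (hb : b ≠ 0) (hD : dl a b ≠ 0) (he : e ^ 3 + a * e + b = 0) :
    e ≠ 0 ∧ (a / e ^ 2 + 3) ^ 2 * (4 * (a / e ^ 2) + 3) ≠ 0 ∧ jj a b = jt (a / e ^ 2) := by
  have he0 : e ≠ 0 := by
    rintro rfl
    apply hb
    linear_combination he
  have hb' : b = -(e ^ 3 + a * e) := by linear_combination he
  have hd : (a / e ^ 2 + 3) ^ 2 * (4 * (a / e ^ 2) + 3) = dl a b / e ^ 6 := by
    rw [hb']
    unfold dl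
    field_simp
    ring
  refine ⟨he0, ?_, ?_⟩
  · rw [hd]
    exact div_ne_zero hD (pow_ne_zero _ he0)
  · rw [jj_eq]
    unfold jt
    rw [hd]
    field_simp

theorem bez (α : K) : (27 * 6912 : K) = 6912 * (1 - 2 * α + 3 * α ^ 2) *
    ((α + 3) ^ 2 * (4 * α + 3)) - (112 + 73 * α + 12 * α ^ 2) * (6912 * α ^ 3) := by
  ring

/-- the height of the invariant -/
theorem ht_jt {α : K} (hg : (α + 3) ^ 2 * (4 * α + 3) ≠ 0) :
    3 * ht α ≤ ht (jt α) + Module.finrank ℚ K * Real.log ((27 * 6912 : ℕ) : ℝ) := by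
  set g := (α + 3) ^ 2 * (4 * α + 3) with hgdef
  set f := 6912 * α ^ 3 with hf
  set N1 : ℕ := 27 * 6912 with hN1
  have hN1' : N1 ≠ 0 := by norm_num [hN1]
  have hjt : jt α = f / g := rfl
  have hs1 : (Function.support fun v : Pr K => Real.log (max (fv v α) 1)).Finite := Fs_ht α
  have hs2 : (Function.support fun v : Pr K => Real.log (max (fv v (jt α)) 1)).Finite :=
    Fs_ht (jt α)
  have hs3 : (Function.support fun v : Pr K => Real.log (fv v g)).Finite := Fs_log hg
  have hs4 : (Function.support fun v : Pr K => Real.log (fv v (N1 : K))).Finite :=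
    Fs_log (K := K) (z := (N1 : K)) (Nat.cast_ne_zero.2 hN1')
  have e1 : ht (jt α) + Module.finrank ℚ K * Real.log (N1 : ℝ) =
      Sm (fun w => (Real.log (max (w.1 (jt α)) 1) + Real.log (w.1 g)) + 0)
        (fun v => (Real.log (max (fv v (jt α)) 1) + Real.log (fv v g)) +
          -1 * Real.log (fv v (N1 : K))) := by
    rw [Sm_add (supp_add hs2 hs3) (supp_mul (-1) hs4), Sm_add hs2 hs3]
    have e4 : Sm (fun _ : InfinitePlace K => (0 : ℝ)) (fun v : Pr K =>
        -1 * Real.log (fv v (N1 : K))) = Module.finrank ℚ K * Real.log (N1 : ℝ) := by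
      unfold Sm
      simp only [mul_zero, Finset.sum_const_zero, zero_add]
      have h5 := fin_nat (K := K) hN1'
      have h6 : ∑ᶠ v : Pr K, -1 * Real.log (fv v (N1 : K)) =
          -1 * ∑ᶠ v : Pr K, Real.log (fv v (N1 : K)) := by
        rw [← smul_eq_mul, smul_finsum]
        rfl
      rw [h6, h5]
      ring
    have e5 : Sm (fun w : InfinitePlace K => Real.log (w.1 g))
        (fun v : Pr K => Real.log (fv v g)) = 0 := Sa_log hg
    rw [e4, e5, ht_eq_Sa]
    unfold Sa
    ring
  have e2 : 3 * ht α = Sm (fun w => 3 * Real.log (max (w.1 α) 1))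
      (fun v : Pr K => 3 * Real.log (max (fv v α) 1)) := by
    rw [Sm_mul, ht_eq_Sa]
    rfl
  rw [e1, e2]
  have conv : ∀ w : AbsoluteValue K ℝ, Real.log (max (w (jt α)) 1) + Real.log (w g) =
      Real.log (max (w f) (w g)) := by
    intro w
    have h1 : 0 < w g := w.pos hg
    rw [← Real.log_mul (lt_max_of_lt_right one_pos).ne' h1.ne', max_mul_of_nonneg _ _ h1.le,
      one_mul, hjt, map_div₀, div_mul_cancel₀ _ h1.ne']
  have hb := bez α
  rw [← hgdef, ← hf] at hb
  clear_value g f
  apply Sm_mono (supp_mul 3 hs1) (supp_add (supp_add hs2 hs3) (supp_mul (-1) hs4))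
  · intro w
    rw [conv w.1, add_zero]
    have hnn : ∀ m : ℕ, w.1 (m : K) = m := inf_nat w
    have hα := w.1.nonneg α
    have e3 : 3 * Real.log (max (w.1 α) 1) = Real.log (max (w.1 α) 1 ^ 3) := by
      rw [Real.log_pow]
      push_cast
      ring
    rw [e3]
    apply Real.log_le_log (pow_pos (lt_max_of_lt_right one_pos) 3)
    have hfw : w.1 f = 6912 * w.1 α ^ 3 := by
      rw [hf, map_mul, map_pow]
      congr 1
      have := hnn 6912
      exact_mod_cast this
    rcases le_or_gt (w.1 α) 1 with h1 | h1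
    · rw [max_eq_right h1, one_pow]
      have h2 : w.1 ((N1 : ℕ) : K) ≤ 41472 * w.1 g + 197 * w.1 f := by
        have e4 : ((N1 : ℕ) : K) = ((6912 : ℕ) : K) * (1 - ((2 : ℕ) : K) * α +
            ((3 : ℕ) : K) * α ^ 2) * g - (((112 : ℕ) : K) + ((73 : ℕ) : K) * α +
            ((12 : ℕ) : K) * α ^ 2) * f := by
          have : ((N1 : ℕ) : K) = 27 * 6912 := by rw [hN1]; push_cast; ring
          rw [this, hb]
          push_cast
          ring
        have i1 : w.1 (1 - ((2 : ℕ) : K) * α + ((3 : ℕ) : K) * α ^ 2) ≤ 6 := by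
          refine (w.1.add_le _ _).trans ?_
          have i2 : w.1 (1 - ((2 : ℕ) : K) * α) ≤ 1 + 2 * w.1 α := by
            rw [sub_eq_add_neg]
            refine (w.1.add_le _ _).trans ?_
            rw [map_one, map_neg_eq_map, map_mul, hnn]
            push_cast
            exact le_rfl
          rw [map_mul, map_pow, hnn]
          push_cast at i2 ⊢
          have : w.1 α ^ 2 ≤ 1 := pow_le_one₀ hα h1
          linarith
        have i3 : w.1 (((112 : ℕ) : K) + ((73 : ℕ) : K) * α + ((12 : ℕ) : K) * α ^ 2) ≤ 197 := by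
          refine (w.1.add_le _ _).trans ?_
          have i2 := w.1.add_le ((112 : ℕ) : K) (((73 : ℕ) : K) * α)
          rw [map_mul, hnn, hnn] at i2
          rw [map_mul, map_pow, hnn]
          push_cast at i2 ⊢
          have : w.1 α ^ 2 ≤ 1 := pow_le_one₀ hα h1
          linarith
        rw [e4, sub_eq_add_neg]
        refine (w.1.add_le _ _).trans ?_
        rw [map_neg_eq_map, map_mul, map_mul, map_mul, hnn]
        have hg0 := w.1.nonneg g
        have hf0 := w.1.nonneg f
        have i5 : 0 ≤ w.1 (1 - ((2 : ℕ) : K) * α + ((3 : ℕ) : K) * α ^ 2) := w.1.nonneg _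
        push_cast at i1 i3 i5 ⊢
        nlinarith
      rw [hnn] at h2
      have h3 := le_max_left (w.1 f) (w.1 g)
      have h4 := le_max_right (w.1 f) (w.1 g)
      rw [hN1] at h2
      push_cast at h2
      linarith
    · rw [max_eq_left h1.le]
      refine le_trans ?_ (le_max_left _ _)
      rw [hfw]
      have : 0 ≤ w.1 α ^ 3 := pow_nonneg hα 3
      linarith
  · intro v
    rw [conv (fv v)]
    have hna := fv_Na v
    have hnn : ∀ m : ℕ, fv v (m : K) ≤ 1 := hna.nat
    have hN1pos : 0 < fv v (N1 : K) := (fv v).pos (Nat.cast_ne_zero.2 hN1')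
    have hα := (fv v).nonneg α
    have e3 : 3 * Real.log (max (fv v α) 1) = Real.log (max (fv v α) 1 ^ 3) := by
      rw [Real.log_pow]
      push_cast
      ring
    have hRpos : 0 < max (fv v f) (fv v g) := lt_max_of_lt_right ((fv v).pos hg)
    have e5 : Real.log (max (fv v f) (fv v g)) + -1 * Real.log (fv v (N1 : K)) =
        Real.log (max (fv v f) (fv v g) / fv v (N1 : K)) := by
      rw [Real.log_div hRpos.ne' hN1pos.ne']
      ring
    rw [e3, e5]
    apply Real.log_le_log (pow_pos (lt_max_of_lt_right one_pos) 3)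
    rw [le_div_iff₀ hN1pos]
    have eN : ((N1 : ℕ) : K) = ((27 : ℕ) : K) * ((6912 : ℕ) : K) := by rw [hN1]; push_cast; ring
    rcases le_or_gt (fv v α) 1 with h1 | h1
    · rw [max_eq_right h1, one_pow, one_mul]
      have e4 : ((N1 : ℕ) : K) = (((6912 : ℕ) : K) * (1 - ((2 : ℕ) : K) * α +
          ((3 : ℕ) : K) * α ^ 2)) * g - (((112 : ℕ) : K) + ((73 : ℕ) : K) * α +
          ((12 : ℕ) : K) * α ^ 2) * f := by
        rw [eN]
        push_cast
        rw [hb]
      have hmul : ∀ z z' : K, fv v z ≤ 1 → fv v z' ≤ 1 → fv v (z * z') ≤ 1 := by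
        intro z z' hz hz'
        exact (Na.le_mul_of hz hz').trans (by norm_num)
      have hsq : fv v (α ^ 2) ≤ 1 := by
        rw [map_pow]
        exact pow_le_one₀ hα h1
      have i1 : fv v (((6912 : ℕ) : K) * (1 - ((2 : ℕ) : K) * α + ((3 : ℕ) : K) * α ^ 2)) ≤ 1 := by
        refine hmul _ _ (hnn _) ?_
        exact hna.le_add (hna.le_sub (by rw [map_one]) (hmul _ _ (hnn _) h1))
          (hmul _ _ (hnn _) hsq)
      have i3 : fv v (((112 : ℕ) : K) + ((73 : ℕ) : K) * α + ((12 : ℕ) : K) * α ^ 2) ≤ 1 :=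
        hna.le_add (hna.le_add (hnn _) (hmul _ _ (hnn _) h1)) (hmul _ _ (hnn _) hsq)
      rw [e4]
      have i4 : fv v ((((6912 : ℕ) : K) * (1 - ((2 : ℕ) : K) * α +
          ((3 : ℕ) : K) * α ^ 2)) * g) ≤ max (fv v f) (fv v g) := by
        refine (Na.le_mul_of i1 le_rfl).trans ?_
        rw [one_mul]
        exact le_max_right _ _
      have i5 : fv v ((((112 : ℕ) : K) + ((73 : ℕ) : K) * α + ((12 : ℕ) : K) * α ^ 2) * f) ≤
          max (fv v f) (fv v g) := by
        refine (Na.le_mul_of i3 le_rfl).trans ?_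
        rw [one_mul]
        exact le_max_left _ _
      exact hna.le_sub i4 i5
    · rw [max_eq_left h1.le]
      refine le_trans ?_ (le_max_left _ _)
      rw [hf, map_mul, map_pow, eN, map_mul]
      have p3 : 0 ≤ fv v α ^ 3 := pow_nonneg hα 3
      have h27 := hnn 27
      have h69 : fv v ((6912 : ℕ) : K) = fv v (6912 : K) := by norm_num
      rw [h69]
      have p69 : 0 ≤ fv v (6912 : K) := (fv v).nonneg _
      have p4 : 0 ≤ fv v (6912 : K) * fv v α ^ 3 := mul_nonneg p69 p3
      nlinarith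

end Two

/-- the invariants of the curves with a point of order two -/
theorem two_count {ε : ℝ} (hε : 0 < ε) : ∃ A : ℝ, 0 ≤ A ∧
    ∀ (K : Type) [Field K] [NumberField K] (X : ℝ) (E : Finset K),
      (∀ j ∈ E, ht j ≤ X ∧ ∃ α : K, Pt α ∧ (α + 3) ^ 2 * (4 * α + 3) ≠ 0 ∧ j = jt α) →
        (E.card : ℝ) ≤ Real.exp (Module.finrank ℚ K * A + (2 + ε) / 3 * X) := by
  classical
  obtain ⟨A, hA, h⟩ := all_card hε
  have l1 : 0 ≤ Real.log ((27 * 6912 : ℕ) : ℝ) := Real.log_natCast_nonneg _
  refine ⟨A + (2 + ε) / 3 * Real.log ((27 * 6912 : ℕ) : ℝ), by positivity, ?_⟩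
  intro K _ _ X E hE
  set n := Module.finrank ℚ K with hn
  have hex : ∀ j : K, ∃ α : K, j ∈ E → Pt α ∧ (α + 3) ^ 2 * (4 * α + 3) ≠ 0 ∧ j = jt α := by
    intro j
    by_cases hj : j ∈ E
    · obtain ⟨_, α, hα⟩ := hE j hj
      exact ⟨α, fun _ => hα⟩
    · exact ⟨0, fun h => absurd h hj⟩
  choose α hα using hex
  have hinj : Set.InjOn α (E : Set K) := by
    intro j hj j' hj' he
    rw [(hα j hj).2.2, (hα j' hj').2.2, he]
  have hc : E.card = (E.image α).card := (Finset.card_image_of_injOn hinj).symm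
  rw [hc]
  have h1 := h K ((X + n * Real.log ((27 * 6912 : ℕ) : ℝ)) / 3) (E.image α) ?_
  · refine h1.trans (le_of_eq ?_)
    congr 1
    ring
  · intro x hx
    obtain ⟨j, hj, rfl⟩ := Finset.mem_image.1 hx
    obtain ⟨i1, i2, i3⟩ := hα j hj
    refine ⟨i1, ?_⟩
    have i4 := ht_jt i2
    rw [← i3] at i4
    have i5 := (hE j hj).1
    rw [← hn] at i4
    generalize Real.log ((27 * 6912 : ℕ) : ℝ) = l at i4 ⊢
    linarith

end Pool.Agent.Y733.LS
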