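import Mathlib
import Pool.Agent.H16.LA.S8.TH910.LS.Chat
import Pool.Agent.H16.LA.S8.Y733.LS.Tele

/-!
# The canonical height
-/

set_option autoImplicit false
set_option linter.unusedSectionVars false

namespace Pool.Agent.Y733.LS

open NumberField IsDedekindDomain Finset Pool.Agent.H691R3 Pool.Agent.W223.AK
open Pool.Agent.TH942 Pool.Agent.TH910.LS WeierstrassCurve Filter Topology

variable {K : Type} [Field K] [NumberField K] [DecidableEq K]

theorem conv_x {a b X X' Y : K} (hX : X = X') (h : (sw a b).toAffine.Nonsingular X Y) :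
    ∃ h' : (sw a b).toAffine.Nonsingular X' Y,
      (Affine.Point.some X Y h : SPt a b) = Affine.Point.some X' Y h' := by
  subst hX
  exact ⟨h, rfl⟩

theorem dup_some {a b x y : K} (h : (sw a b).toAffine.Nonsingular x y) (hy : y ≠ 0) :
    pG a b x ≠ 0 ∧ ∃ (y' : K) (h' : (sw a b).toAffine.Nonsingular (pF a b x / pG a b x) y'),
      (2 : ℕ) • (Affine.Point.some x y h : SPt a b) = Affine.Point.some _ y' h' := by
  have he : y ^ 2 = x ^ 3 + a * x + b := sw_eqn.1 h.1
  have hG : pG a b x ≠ 0 := by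
    unfold pG
    rw [← he]
    exact mul_ne_zero (by norm_num) (pow_ne_zero 2 hy)
  refine ⟨hG, ?_⟩
  have hn : (sw a b).toAffine.negY x y = -y := by
    simp [Affine.negY, sw]
  have hyne : y ≠ (sw a b).toAffine.negY x y := by
    rw [hn]
    intro h0
    apply hy
    have h2 : (2 : K) * y = 0 := by linear_combination h0
    rcases mul_eq_zero.1 h2 with h3 | h3
    · norm_num at h3
    · exact h3
  have hX : (sw a b).toAffine.addX x x ((sw a b).toAffine.slope x x y y) =
      pF a b x / pG a b x := by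
    rw [Affine.slope_of_Y_ne rfl hyne, hn, Affine.addX]
    simp only [sw]
    have h4 : y - -y = 2 * y := by ring
    rw [h4, eq_div_iff hG]
    have hG' : pG a b x = 4 * y ^ 2 := by unfold pG; rw [he]
    rw [hG']
    have hb : b = y ^ 2 - x ^ 3 - a * x := by rw [he]; ring
    unfold pF
    field_simp
    rw [hb]
    ring
  rw [two_nsmul, Affine.Point.add_self_of_Y_ne hyne]
  have hns := Affine.nonsingular_add h h (fun hxy => hyne hxy.right)
  obtain ⟨h', e⟩ := conv_x hX hns
  exact ⟨_, h', e⟩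

theorem dup_zero {a b x y : K} (h : (sw a b).toAffine.Nonsingular x y) (hy : y = 0) :
    (2 : ℕ) • (Affine.Point.some x y h : SPt a b) = 0 := by
  subst hy
  rw [two_nsmul]
  apply Affine.Point.add_self_of_Y_eq
  simp [Affine.negY, sw]

theorem exists_coord {a b : K} (P : SPt a b) (hP : P ≠ 0) :
    ∃ (x y : K) (h : (sw a b).toAffine.Nonsingular x y), P = Affine.Point.some x y h := by
  match P, hP with
  | 0, hP => exact absurd rfl hP
  | .some x y h, _ => exact ⟨x, y, h, rfl⟩

theorem sht_some {a b x y : K} (h : (sw a b).toAffine.Nonsingular x y) :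
    sht (Affine.Point.some x y h : SPt a b) = Sa (fun w => Real.log (max (w x) 1)) := by
  rw [sht, Affine.Point.xRep_some, ← Height.logHeight₁_eq_logHeight, logHeight_eq]

/-- a ramified twist of a curve with good reduction at `v` -/
def GainAt (a b : K) (v : Pr K) : Prop :=
  fv v 2 = 1 ∧ fv v a ^ 3 = fv v b ^ 2 ∧ fv v (dl a b) = fv v b ^ 2 ∧
    ∃ k : ℤ, Odd k ∧ fv v (b / a) = (Nv v) ^ k

theorem sht_ge {a b x y : K} (ha : a ≠ 0) (hb : b ≠ 0)
    (h : (sw a b).toAffine.Nonsingular x y) :
    Sa (Lam a b x) - Sa (fun w => Real.log (max (sz w a b) 1)) ≤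
      sht (Affine.Point.some x y h : SPt a b) := by
  classical
  rw [sht_some]
  have hs1 : (Function.support fun v : Pr K => Lam a b x (fv v)).Finite := Fs_Lam ha hb x
  have hs2 : (Function.support fun v : Pr K => Real.log (max (sz (fv v) a b) 1)).Finite := by
    refine (ne_sets ha hb 0).subset ?_
    intro v hv
    rw [Function.mem_support] at hv
    by_contra hcon
    simp only [Set.mem_ofPred_eq, not_or, not_not, not_lt] at hcon
    obtain ⟨h1, h2, h3⟩ := hcon
    apply hv
    rw [sz_one h1 h2, max_self, Real.log_one]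
  have hs3 : (Function.support fun v : Pr K => Real.log (max (fv v x) 1)).Finite := Fs_ht x
  unfold Sa
  rw [← Sm_sub hs1 hs2]
  have key : ∀ w : AbsoluteValue K ℝ, Lam a b x w - Real.log (max (sz w a b) 1) ≤
      Real.log (max (w x) 1) := by
    intro w
    have h0 : 0 < max (w x) (sz w a b) := lt_max_of_lt_right (sz_pos ha)
    have h1 : 0 < max (w x) 1 := lt_max_of_lt_right one_pos
    have h2 : 0 < max (sz w a b) 1 := lt_max_of_lt_right one_pos
    have h3 : max (w x) (sz w a b) ≤ max (w x) 1 * max (sz w a b) 1 := by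
      apply max_le
      · calc w x ≤ max (w x) 1 := le_max_left _ _
          _ = max (w x) 1 * 1 := (mul_one _).symm
          _ ≤ _ := mul_le_mul_of_nonneg_left (le_max_right _ _) h1.le
      · calc sz w a b ≤ max (sz w a b) 1 := le_max_left _ _
          _ = 1 * max (sz w a b) 1 := (one_mul _).symm
          _ ≤ _ := mul_le_mul_of_nonneg_right (le_max_right _ _) h2.le
    have h4 := Real.log_le_log h0 h3
    rw [Real.log_mul h1.ne' h2.ne'] at h4
    unfold Lam
    linarith
  exact Sm_mono (supp_sub hs1 hs2) hs3 (fun w => key w.1) (fun v => key (fv v))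

/-- the gain -/
theorem gain_sum {a b x y : K} (ha : a ≠ 0) (hb : b ≠ 0)
    (h : (sw a b).toAffine.Nonsingular x y) (hy : y ≠ 0) (T : Finset (Pr K))
    (hT : ∀ v ∈ T, GainAt a b v) :
    Sa (fun w => Real.log (sz w a b)) + ∑ v ∈ T, Real.log (Nv v) ≤
      Sa (Lam a b (pF a b x / pG a b x)) := by
  classical
  have he : y ^ 2 = x ^ 3 + a * x + b := sw_eqn.1 h.1
  have hs1 : (Function.support fun v : Pr K => Real.log (sz (fv v) a b)).Finite := Fs_sz ha hb
  have hs2 : (Function.support fun v : Pr K =>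
      if v ∈ T then Real.log (Nv v) else 0).Finite := by
    refine T.finite_toSet.subset ?_
    intro v hv
    rw [Function.mem_support] at hv
    by_contra hcon
    exact hv (if_neg hcon)
  have hs3 : (Function.support fun v : Pr K => Lam a b (pF a b x / pG a b x) (fv v)).Finite :=
    Fs_Lam ha hb _
  have e1 : Sa (fun w => Real.log (sz w a b)) + ∑ v ∈ T, Real.log (Nv v) =
      Sm (fun w : InfinitePlace K => Real.log (sz w.1 a b) + 0)
        (fun v => Real.log (sz (fv v) a b) + if v ∈ T then Real.log (Nv v) else 0) := by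
    rw [Sm_add hs1 hs2]
    have e2 : Sm (fun _ : InfinitePlace K => (0 : ℝ)) (fun v : Pr K =>
        if v ∈ T then Real.log (Nv v) else 0) = ∑ v ∈ T, Real.log (Nv v) := by
      unfold Sm
      simp only [mul_zero, Finset.sum_const_zero, zero_add]
      rw [finsum_eq_sum_of_support_subset (s := T)]
      · exact Finset.sum_congr rfl fun v hv => if_pos hv
      · intro v hv
        rw [Function.mem_support] at hv
        by_contra hcon
        exact hv (if_neg hcon)
    rw [e2]
    rfl
  rw [e1]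
  apply Sm_mono (supp_add hs1 hs2) hs3
  · intro w
    rw [add_zero]
    exact Real.log_le_log (sz_pos ha) (le_max_right _ _)
  · intro v
    unfold Lam
    split_ifs with hv
    · obtain ⟨h2, h3, h4, k, hk, hk'⟩ := hT v hv
      have h5 := gain (fv_Na v) h2 ha hb h3 h4 (Nv_one_lt v) (fun z hz => fv_zpow v hz) hk hk' hy he
      rw [← Real.log_mul (sz_pos ha).ne' (Nv_pos v).ne']
      exact Real.log_le_log (mul_pos (sz_pos ha) (Nv_pos v)) (h5.trans (le_max_left _ _))
    · rw [add_zero]
      exact Real.log_le_log (sz_pos ha) (le_max_right _ _)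

/-- the constant -/
noncomputable def C3 : ℝ :=
  1 / 24 * Real.log 6912 + 1 / 12 * (Real.log 250 + Real.log ((4 * 6912 * 46656 : ℕ) : ℝ))

/-- **the lower bound for the canonical height** -/
theorem chat_ge {a b : K} (ha : a ≠ 0) (hb : b ≠ 0) (hD : dl a b ≠ 0) (P : SPt a b)
    (hP : ∀ k : ℕ, (2 ^ k : ℕ) • P ≠ 0) (T : Finset (Pr K)) (hT : ∀ v ∈ T, GainAt a b v) :
    1 / 12 * sp (jj a b) - 1 / 24 * ht (jj a b) + 1 / 4 * ∑ v ∈ T, Real.log (Nv v) -
      Module.finrank ℚ K * C3 ≤ chat P := by
  have hex : ∀ k : ℕ, ∃ (x y : K) (h : (sw a b).toAffine.Nonsingular x y),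
      (2 ^ k : ℕ) • P = Affine.Point.some x y h := fun k => exists_coord _ (hP k)
  choose x y h hxy using hex
  have hy : ∀ k, y k ≠ 0 := by
    intro k h0
    apply hP (k + 1)
    rw [pow_succ, mul_comm, mul_smul, hxy k]
    exact dup_zero (h k) h0
  have hG : ∀ k, pG a b (x k) ≠ 0 := fun k => (dup_some (h k) (hy k)).1
  have hx : ∀ k, x (k + 1) = pF a b (x k) / pG a b (x k) := by
    intro k
    obtain ⟨_, y', h', e⟩ := dup_some (h k) (hy k)
    have e1 : (2 ^ (k + 1) : ℕ) • P = Affine.Point.some _ y' h' := by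
      rw [pow_succ, mul_comm, mul_smul, hxy k, e]
    rw [hxy (k + 1)] at e1
    injection e1
  set L := Sm (lossi a b) (lossf a b) with hL
  set D := Sa (fun w : AbsoluteValue K ℝ => Real.log (max (sz w a b) 1)) with hDD
  set A := Sa (Lam a b (x 1)) - L / 3 with hA
  have hlow : ∀ k : ℕ, A / 4 + (L / 3 - D) / 4 ^ (k + 1) ≤
      sht ((2 ^ (k + 1) : ℕ) • P) / 4 ^ (k + 1) := by
    intro k
    have h1 := tele ha hb hD hG hx k
    have h2 := sht_ge ha hb (h (k + 1))
    rw [← hxy (k + 1), ← hDD] at h2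
    rw [← hL, ← hA] at h1
    have h4 : (0 : ℝ) < 4 ^ (k + 1) := by positivity
    rw [← sub_nonneg]
    have e : sht ((2 ^ (k + 1) : ℕ) • P) / 4 ^ (k + 1) - (A / 4 + (L / 3 - D) / 4 ^ (k + 1)) =
        (sht ((2 ^ (k + 1) : ℕ) • P) - 4 ^ k * A - L / 3 + D) / 4 ^ (k + 1) := by
      rw [pow_succ]
      field_simp
      ring
    rw [e]
    apply div_nonneg _ h4.le
    linarith
  have hlim := ((tendsto_add_atTop_iff_nat 1).2 ((chat_spec hD).1 P))
  have hlim2 : Tendsto (fun k : ℕ => A / 4 + (L / 3 - D) / 4 ^ (k + 1)) atTop (𝓝 (A / 4 + 0)) := by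
    apply Tendsto.add tendsto_const_nhds
    have h5 : Tendsto (fun k : ℕ => (4 : ℝ) ^ (k + 1)) atTop atTop :=
      (tendsto_add_atTop_iff_nat 1).2 (tendsto_pow_atTop_atTop_of_one_lt (by norm_num))
    exact h5.const_div_atTop _
  have hfin : A / 4 + 0 ≤ chat P := le_of_tendsto_of_tendsto' hlim2 hlim hlow
  have h6 := gain_sum ha hb (h 0) (hy 0) T hT
  rw [← hx 0] at h6
  have h7 := sz_sum ha hb hD
  have h8 := loss_sum ha hb hD
  rw [← hL] at h8
  unfold C3
  simp only [zero_add] at h6
  rw [hA] at hfin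
  generalize Real.log ((4 * 6912 * 46656 : ℕ) : ℝ) = l1 at h8 ⊢
  generalize Real.log 6912 = l2 at h7 ⊢
  generalize Real.log 250 = l3 at h8 ⊢
  generalize (Module.finrank ℚ K : ℝ) = n at h7 h8 ⊢
  generalize (Sa fun w : AbsoluteValue K ℝ => Real.log (sz w a b)) = s at h6 h7
  generalize Sa (Lam a b (x 1)) = s' at h6 hfin
  clear hlim hlim2 hlow hA hL
  clear_value L
  generalize chat P = cc at hfin ⊢
  generalize sp (jj a b) = s2 at h8 ⊢
  generalize ht (jj a b) = s3 at h7 h8 ⊢
  generalize (∑ v ∈ T, Real.log (Nv v)) = s4 at h6 ⊢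
  nlinarith

end Pool.Agent.Y733.LS
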