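import Mathlib
import Pool.Agent.H16.LA.S8.Y733.LS.Pts
import Pool.Agent.H16.LA.S8.Y733.LS.Cnt

/-!
# The primes of bad reduction
-/

set_option autoImplicit false
set_option linter.unusedSectionVars false

namespace Pool.Agent.Y733.LS

open NumberField IsDedekindDomain Finset Pool.Agent.H691R3 Pool.Agent.W223.AK

variable {K : Type} [Field K] [NumberField K]

/-- bad reduction: the valuation of the discriminant is not divisible by twelve, or `j` has a
pole -/
def BadAt (a b : K) (v : Pr K) : Prop :=
  (∀ u : K, fv v (dl a b) ≠ fv v u ^ 12) ∨ 1 < fv v (jj a b)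

theorem exists_fv (v : Pr K) (m : ℤ) : ∃ u : K, fv v u = (Nv v) ^ m := by
  obtain ⟨π, hπ⟩ := v.valuation_exists_uniformizer K
  have hπ0 : π ≠ 0 := by
    rintro rfl
    rw [map_zero] at hπ
    exact absurd hπ.symm (by simp)
  obtain ⟨k, hk⟩ := fv_zpow v hπ0
  have h1 : fv v π = _ := NumberField.FinitePlace.norm_embedding' (v := v) (x := π)
  have hx' : v.valuation K π ≠ 0 := (Valuation.ne_zero_iff _).mpr hπ0
  rw [WithZeroMulInt.toNNReal_neg_apply _ hx'] at h1
  have h2 : Multiplicative.toAdd (WithZero.unzero hx') = -1 := by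
    have h3 : WithZero.unzero hx' = Multiplicative.ofAdd (-1 : ℤ) := by
      apply WithZero.coe_injective
      rw [WithZero.coe_unzero, hπ]
      rfl
    rw [h3]
    rfl
  have h4 : fv v π = (Nv v) ^ (-1 : ℤ) := by
    rw [h1, h2]
    push_cast
    rfl
  refine ⟨π ^ (-m), ?_⟩
  rw [map_zpow₀, h4, ← zpow_mul]
  congr 1
  ring

theorem sum_le_fin (S : Finset (Pr K)) {g : Pr K → ℝ} (hg : (Function.support g).Finite)
    (h0 : ∀ v, 0 ≤ g v) : ∑ v ∈ S, g v ≤ ∑ᶠ v, g v := by
  classical
  rw [finsum_eq_sum_of_support_subset (s := S ∪ hg.toFinset)]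
  · exact Finset.sum_le_sum_of_subset_of_nonneg Finset.subset_union_left fun v _ _ => h0 v
  · intro v hv
    rw [Finset.coe_union]
    right
    rwa [Set.Finite.coe_toFinset]

theorem sum_max_le (j : K) (S : Finset (Pr K)) :
    ∑ v ∈ S, Real.log (max (fv v j) 1) ≤ ht j := by
  refine (sum_le_fin S (Fs_ht j) fun v => Real.log_nonneg (le_max_right _ _)).trans ?_
  rw [ht_eq_Sa]
  unfold Sa Sm
  have : 0 ≤ ∑ w : InfinitePlace K, (w.mult : ℝ) * Real.log (max (w.1 j) 1) :=
    Finset.sum_nonneg fun w _ => mul_nonneg (Nat.cast_nonneg _)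
      (Real.log_nonneg (le_max_right _ _))
  linarith

theorem sum_sub_le {j z : K} (hz : z ≠ 0) (S : Finset (Pr K)) {C : ℝ}
    (h1 : ∀ v : Pr K, fv v z ≤ max (fv v j) 1)
    (h2 : ∀ w : InfinitePlace K, Real.log (w.1 z) ≤ Real.log (max (w.1 j) 1) + C) :
    ∑ v ∈ S, (Real.log (max (fv v j) 1) - Real.log (fv v z)) ≤
      ht j + Module.finrank ℚ K * C := by
  have hs1 : (Function.support fun v : Pr K => Real.log (max (fv v j) 1)).Finite := Fs_ht j
  have hs2 : (Function.support fun v : Pr K => Real.log (fv v z)).Finite := Fs_log hz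
  refine (sum_le_fin S (supp_sub hs1 hs2) fun v =>
    sub_nonneg.2 (Real.log_le_log ((fv v).pos hz) (h1 v))).trans ?_
  have e1 : ht j = Sm (fun w => Real.log (max (w.1 j) 1) - Real.log (w.1 z))
      (fun v : Pr K => Real.log (max (fv v j) 1) - Real.log (fv v z)) := by
    rw [Sm_sub hs1 hs2, ht_eq_Sa]
    have := Sa_log hz
    unfold Sa at this ⊢
    rw [this, sub_zero]
  rw [e1]
  unfold Sm
  have h3 : -(Module.finrank ℚ K * C) ≤ ∑ w : InfinitePlace K, (w.mult : ℝ) *
      (Real.log (max (w.1 j) 1) - Real.log (w.1 z)) := by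
    rw [← sum_mult, Finset.sum_mul, ← Finset.sum_neg_distrib]
    refine Finset.sum_le_sum fun w _ => ?_
    have h4 := h2 w
    have h5 : (0 : ℝ) ≤ (w.mult : ℝ) := Nat.cast_nonneg _
    nlinarith
  linarith

/-- the places of bad reduction, except those where the curve is a twist of a curve of good
reduction, are controlled by the height of `j` -/
theorem bad_sum {a b : K} (ha : a ≠ 0) (hb : b ≠ 0) (hD : dl a b ≠ 0) (S : Finset (Pr K))
    (hS : ∀ v ∈ S, BadAt a b v) : ∃ T : Finset (Pr K), (∀ v ∈ T, GainAt a b v) ∧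
      ∑ v ∈ S, Real.log (Nv v) ≤ ∑ v ∈ T, Real.log (Nv v) + 3 * ht (jj a b) +
        Module.finrank ℚ K * (Real.log 6 + Real.log 1729) := by
  classical
  set j := jj a b with hj
  have hj0 : j ≠ 0 := by
    rw [hj, jj_eq]
    exact div_ne_zero (mul_ne_zero (by norm_num) (pow_ne_zero _ ha)) hD
  have hj1 : j - 1728 ≠ 0 := by
    rw [hj, jj_sub a b hD]
    exact neg_ne_zero.2 (div_ne_zero (mul_ne_zero (by norm_num) (pow_ne_zero _ hb)) hD)
  set T := S.filter fun v => fv v 2 = 1 ∧ fv v 3 = 1 ∧ fv v j = 1 ∧ fv v (j - 1728) = 1 with hT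
  refine ⟨T, ?_, ?_⟩
  · intro v hv
    rw [hT, Finset.mem_filter] at hv
    obtain ⟨hvS, h2, h3, h4, h5⟩ := hv
    have n6912 : fv v (6912 : K) = 1 := by
      have : (6912 : K) = 2 ^ 8 * 3 ^ 3 := by norm_num
      rw [this, map_mul, map_pow, map_pow, h2, h3]
      norm_num
    have n46656 : fv v (46656 : K) = 1 := by
      have : (46656 : K) = 2 ^ 6 * 3 ^ 6 := by norm_num
      rw [this, map_mul, map_pow, map_pow, h2, h3]
      norm_num
    have hd : 0 < fv v (dl a b) := (fv v).pos hD
    have e1 : fv v a ^ 3 = fv v (dl a b) := by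
      have := w_jj (fv v) a b
      rw [← hj, h4, n6912, one_mul] at this
      field_simp at this
      exact this.symm
    have e2 : fv v b ^ 2 = fv v (dl a b) := by
      have := w_jj_sub (fv v) a b hD
      rw [← hj, h5, n46656, one_mul] at this
      field_simp at this
      exact this.symm
    refine ⟨h2, by rw [e1, e2], e2.symm, ?_⟩
    obtain ⟨k, hk⟩ := fv_zpow v (div_ne_zero hb ha)
    refine ⟨k, ?_, hk⟩
    rcases hS v hvS with h6 | h6
    · by_contra hodd
      rw [Int.not_odd_iff_even] at hodd
      obtain ⟨m, hm⟩ := hodd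
      obtain ⟨u, hu⟩ := exists_fv v m
      apply h6 u
      have ha0 : 0 < fv v a := (fv v).pos ha
      have e3 : fv v a = fv v (b / a) ^ 2 := by
        rw [map_div₀, div_pow, e2, ← e1]
        field_simp
      rw [← e1, e3, hk, hu, hm, ← pow_mul, ← zpow_natCast, ← zpow_natCast, ← zpow_mul, ← zpow_mul]
      congr 1
      push_cast
      ring
    · rw [← hj, h4] at h6
      exact absurd h6 (lt_irrefl _)
  · have i1 := sum_max_le j S
    have i2 := sum_sub_le (j := j) (z := j) hj0 S (C := 0) (fun v => le_max_left _ _)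
      (fun w => by
        rw [add_zero]
        exact Real.log_le_log (w.1.pos hj0) (le_max_left _ _))
    have i3 := sum_sub_le (j := j) (z := j - 1728) hj1 S (C := Real.log 1729)
      (fun v => ((fv_Na v).sub _ _).trans (max_le_max le_rfl ((fv_Na v).ofNat 1728)))
      (fun w => by
        have hm : (0 : ℝ) < max (w.1 j) 1 := lt_max_of_lt_right one_pos
        rw [← Real.log_mul hm.ne' (by norm_num)]
        apply Real.log_le_log (w.1.pos hj1)
        have h1728 : w.1 (1728 : K) = 1728 := by
          have := inf_nat w 1728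
          exact_mod_cast this
        have h := w.1.sub_le j 0 1728
        simp only [sub_zero, zero_sub, map_neg_eq_map] at h
        have h4 := le_max_left (w.1 j) 1
        have h5 := le_max_right (w.1 j) 1
        linarith)
    have i4 : ∑ v ∈ S.filter (fun v => fv v ((6 : ℕ) : K) ≠ 1), Real.log (Nv v) ≤
        Module.finrank ℚ K * Real.log 6 := by
      have := sum_dvd (K := K) (n := 6) (by norm_num)
        (S.filter (fun v => fv v ((6 : ℕ) : K) ≠ 1)) (fun v hv => (Finset.mem_filter.1 hv).2)
      exact_mod_cast this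
    rw [Finset.sum_filter] at i4
    rw [hT, Finset.sum_filter]
    have key : ∀ v ∈ S, Real.log (Nv v) ≤
        (if fv v 2 = 1 ∧ fv v 3 = 1 ∧ fv v j = 1 ∧ fv v (j - 1728) = 1 then Real.log (Nv v)
          else 0) + Real.log (max (fv v j) 1) +
        (Real.log (max (fv v j) 1) - Real.log (fv v j)) +
        (Real.log (max (fv v j) 1) - Real.log (fv v (j - 1728))) +
        (if fv v ((6 : ℕ) : K) ≠ 1 then Real.log (Nv v) else 0) := by
      intro v _
      have hlog := log_Nv_pos v
      have p1 : 0 ≤ Real.log (max (fv v j) 1) := Real.log_nonneg (le_max_right _ _)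
      have p2 : Real.log (fv v j) ≤ Real.log (max (fv v j) 1) :=
        Real.log_le_log ((fv v).pos hj0) (le_max_left _ _)
      have p3 : Real.log (fv v (j - 1728)) ≤ Real.log (max (fv v j) 1) :=
        Real.log_le_log ((fv v).pos hj1)
          (((fv_Na v).sub _ _).trans (max_le_max le_rfl ((fv_Na v).ofNat 1728)))
      have q1 : 0 ≤ if fv v 2 = 1 ∧ fv v 3 = 1 ∧ fv v j = 1 ∧ fv v (j - 1728) = 1 then
          Real.log (Nv v) else 0 := by
        split_ifs
        · exact hlog.le
        · exact le_rfl
      have q2 : 0 ≤ if fv v ((6 : ℕ) : K) ≠ 1 then Real.log (Nv v) else 0 := by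
        split_ifs
        · exact hlog.le
        · exact le_rfl
      have small : ∀ z : K, z ≠ 0 → fv v z < 1 → Real.log (Nv v) ≤ -Real.log (fv v z) := by
        intro z hz hlt
        obtain ⟨m, hm⟩ := fv_zpow v hz
        rw [hm] at hlt ⊢
        have h5 : m < 0 := by
          by_contra hcon
          push Not at hcon
          have := one_le_zpow₀ (Nv_one_lt v).le hcon
          linarith
        rw [Real.log_zpow]
        have h6 : (m : ℝ) ≤ -1 := by exact_mod_cast (by omega : m ≤ -1)
        nlinarith
      by_cases h6 : fv v ((6 : ℕ) : K) ≠ 1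
      · rw [if_pos h6]
        linarith
      · push Not at h6
        have e6 : fv v 2 * fv v 3 = 1 := by
          rw [← map_mul, ← h6]
          congr 1
          push_cast
          norm_num
        have l2 : fv v (2 : K) ≤ 1 := (fv_Na v).ofNat 2
        have l3 : fv v (3 : K) ≤ 1 := (fv_Na v).ofNat 3
        have pp2 : 0 ≤ fv v (2 : K) := (fv v).nonneg _
        have pp3 : 0 ≤ fv v (3 : K) := (fv v).nonneg _
        have h2 : fv v (2 : K) = 1 := by
          apply le_antisymm l2
          nlinarith
        have h3 : fv v (3 : K) = 1 := by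
          apply le_antisymm l3
          nlinarith
        rcases lt_trichotomy (fv v j) 1 with h | h | h
        · have := small j hj0 h
          linarith
        · rcases lt_or_ge (fv v (j - 1728)) 1 with h7 | h7
          · have := small (j - 1728) hj1 h7
            linarith
          · have h8 : fv v (j - 1728) = 1 := by
              apply le_antisymm _ h7
              have := ((fv_Na v).sub j 1728).trans (max_le_max le_rfl ((fv_Na v).ofNat 1728))
              rwa [h, max_self] at this
            rw [if_pos ⟨h2, h3, h, h8⟩] at q1 ⊢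
            linarith
        · obtain ⟨m, hm⟩ := fv_zpow v hj0
          have h5 : 0 < m := by
            by_contra hcon
            push Not at hcon
            rw [hm] at h
            have := zpow_le_zpow_right₀ (Nv_one_lt v).le hcon
            rw [zpow_zero] at this
            linarith
          have h6' : (1 : ℝ) ≤ (m : ℝ) := by exact_mod_cast h5
          have h7 : Real.log (Nv v) ≤ Real.log (max (fv v j) 1) := by
            rw [max_eq_left h.le, hm, Real.log_zpow]
            nlinarith
          linarith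
    have hsum := Finset.sum_le_sum key
    rw [Finset.sum_add_distrib, Finset.sum_add_distrib, Finset.sum_add_distrib,
      Finset.sum_add_distrib] at hsum
    linarith

end Pool.Agent.Y733.LS
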